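import Pool.Agent.Lib.MP_f1d828_lc.Model

/-! Integration over one more item, integrals of functions constant on cells. -/

open MeasureTheory Filter
open scoped ENNReal

namespace Pool.Agent.F1D

instance : IsProbabilityMeasure unif := ⟨by simp [unif]⟩

instance (n : ℕ) : IsProbabilityMeasure (law n) := by unfold law; infer_instance

theorem lintegral_law_succ {n : ℕ} {F : (Fin (n + 1) → ℝ) → ℝ≥0∞} (hF : Measurable F) :
    ∫⁻ x, F x ∂(law (n + 1)) = ∫⁻ x, ∫⁻ y, F (Fin.snoc x y) ∂unif ∂(law n) := by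
  have h := measurePreserving_piFinSuccAbove (fun _ : Fin (n + 1) => unif) (Fin.last n)
  have h' := h.symm
  have e : ∀ p : ℝ × (Fin n → ℝ),
      (MeasurableEquiv.piFinSuccAbove (fun _ : Fin (n + 1) => ℝ) (Fin.last n)).symm p =
        Fin.snoc p.2 p.1 := by
    intro p
    simp [MeasurableEquiv.piFinSuccAbove, Fin.insertNthEquiv, Fin.insertNth_last']
  unfold law
  rw [← h'.lintegral_comp hF]
  rw [lintegral_prod_symm]
  · apply lintegral_congr
    intro x
    apply lintegral_congr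
    intro y
    rw [e]
  · exact (hF.comp (MeasurableEquiv.measurable _)).aemeasurable

theorem measurable_snoc_lintegral {n : ℕ} {F : (Fin (n + 1) → ℝ) → ℝ≥0∞} (hF : Measurable F) :
    Measurable fun x : Fin n → ℝ => ∫⁻ y, F (Fin.snoc x y) ∂unif := by
  apply Measurable.lintegral_prod_right' (f := fun p : (Fin n → ℝ) × ℝ => F (Fin.snoc p.1 p.2))
  apply hF.comp
  rw [measurable_pi_iff]
  intro i
  refine Fin.lastCases ?_ (fun i => ?_) i
  · simpa using measurable_snd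
  · simp only [Fin.snoc_castSucc]
    exact (measurable_pi_apply i).comp measurable_fst

theorem lintegral_unif_cells {m : ℕ} (hm : 0 < m) (f : ℝ → ℝ≥0∞) :
    ∫⁻ y, f y ∂unif = ∑ j ∈ Finset.range m,
      ∫⁻ y in Set.Ioo ((j : ℝ) / m) (((j : ℝ) + 1) / m), f y := by
  have hm' : (0 : ℝ) < m := by exact_mod_cast hm
  have e1 : ∀ k : ℕ, k ≤ m → ∫⁻ y in Set.Ico (0 : ℝ) ((k : ℝ) / m), f y =
      ∑ j ∈ Finset.range k, ∫⁻ y in Set.Ioo ((j : ℝ) / m) (((j : ℝ) + 1) / m), f y := by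
    intro k
    induction k with
    | zero => intro _; simp
    | succ k ih =>
      intro hk
      rw [Finset.sum_range_succ, ← ih (by omega)]
      have hu : Set.Ico (0 : ℝ) (((k + 1 : ℕ) : ℝ) / m) =
          Set.Ico (0 : ℝ) ((k : ℝ) / m) ∪ Set.Ico ((k : ℝ) / m) (((k : ℝ) + 1) / m) := by
        rw [Set.Ico_union_Ico_eq_Ico]
        · push_cast; rfl
        · positivity
        · gcongr; linarith
      rw [hu, lintegral_union measurableSet_Ico]
      · congr 1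
        exact setLIntegral_congr Ioo_ae_eq_Ico.symm
      · rw [Set.disjoint_left]
        intro y h1 h2
        exact absurd h1.2 (not_lt.mpr h2.1)
  have h2 := e1 m le_rfl
  rw [div_self hm'.ne'] at h2
  rw [← h2]
  unfold unif
  exact (setLIntegral_congr Ico_ae_eq_Icc).symm

theorem volume_cell {m : ℕ} (hm : 0 < m) (j : ℕ) :
    volume (Set.Ioo ((j : ℝ) / m) (((j : ℝ) + 1) / m)) = (m : ℝ≥0∞)⁻¹ := by
  rw [Real.volume_Ioo]
  have hm' : (0 : ℝ) < m := by exact_mod_cast hm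
  have : ((j : ℝ) + 1) / m - (j : ℝ) / m = (m : ℝ)⁻¹ := by field_simp; ring
  rw [this, ENNReal.ofReal_inv_of_pos hm', ENNReal.ofReal_natCast]

theorem le_lintegral_unif {m : ℕ} (hm : 0 < m) {f : ℝ → ℝ≥0∞} {g : ℕ → ℝ≥0∞}
    (h : ∀ j < m, ∀ y ∈ Set.Ioo ((j : ℝ) / m) (((j : ℝ) + 1) / m), g j ≤ f y) :
    (∑ j ∈ Finset.range m, g j) / m ≤ ∫⁻ y, f y ∂unif := by
  rw [lintegral_unif_cells hm, ENNReal.div_eq_inv_mul, Finset.mul_sum]
  apply Finset.sum_le_sum
  intro j hj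
  calc (m : ℝ≥0∞)⁻¹ * g j = ∫⁻ y in Set.Ioo ((j : ℝ) / m) (((j : ℝ) + 1) / m), g j := by
        rw [setLIntegral_const, volume_cell hm, mul_comm]
    _ ≤ _ := setLIntegral_mono' measurableSet_Ioo (fun y hy => h j (Finset.mem_range.mp hj) y hy)

theorem lintegral_unif_le {m : ℕ} (hm : 0 < m) {f : ℝ → ℝ≥0∞} {g : ℕ → ℝ≥0∞}
    (h : ∀ j < m, ∀ y ∈ Set.Ioo ((j : ℝ) / m) (((j : ℝ) + 1) / m), f y ≤ g j) :
    ∫⁻ y, f y ∂unif ≤ (∑ j ∈ Finset.range m, g j) / m := by
  rw [lintegral_unif_cells hm, ENNReal.div_eq_inv_mul, Finset.mul_sum]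
  apply Finset.sum_le_sum
  intro j hj
  calc _ ≤ ∫⁻ y in Set.Ioo ((j : ℝ) / m) (((j : ℝ) + 1) / m), g j :=
        setLIntegral_mono' measurableSet_Ioo (fun y hy => h j (Finset.mem_range.mp hj) y hy)
    _ = (m : ℝ≥0∞)⁻¹ * g j := by
        rw [setLIntegral_const, volume_cell hm, mul_comm]

theorem ae_law (n : ℕ) : ∀ᵐ x ∂(law n), ∀ i, x i ∈ Set.Icc (0 : ℝ) 1 := by
  rw [ae_all_iff]
  intro i
  have h : ∀ᵐ y ∂unif, y ∈ Set.Icc (0 : ℝ) 1 := ae_restrict_mem measurableSet_Icc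
  exact (Measure.tendsto_eval_ae_ae (μ := fun _ : Fin n => unif) (i := i)).eventually h

/-! ### One more item -/

theorem upto_snoc_castSucc {n : ℕ} (x : Fin n → ℝ) (y : ℝ) (i : Fin n) :
    upto (Fin.snoc (α := fun _ => ℝ) x y) i.castSucc = upto x i := by
  funext j
  simp only [upto]
  have : Fin.castLE (Nat.succ_le_of_lt i.castSucc.2) j =
      Fin.castSucc (Fin.castLE (Nat.succ_le_of_lt i.2) j) := by
    ext; simp
  rw [this, Fin.snoc_castSucc]

theorem upto_last {n : ℕ} (x : Fin (n + 1) → ℝ) : upto x (Fin.last n) = x := by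
  funext j
  simp only [upto]
  rfl

end Pool.Agent.F1D
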