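import Pool.Agent.Lib.MP_f1d828_lc.ChkDef
import Pool.Agent.Lib.MP_f1d828_lc.TabL

set_option autoImplicit false

namespace Pool.Agent.F1D

set_option maxRecDepth 100000 in
theorem blkL0 : chkL 27 512 131072 0 39476145 rowsL 0 9 = true := by
  decide +kernel

set_option maxRecDepth 100000 in
theorem blkL1 : chkL 27 512 131072 0 39476145 rowsL 9 8 = true := by
  decide +kernel

set_option maxRecDepth 100000 in
theorem blkL2 : chkL 27 512 131072 0 39476145 rowsL 17 8 = true := by
  decide +kernel

set_option maxRecDepth 100000 in
theorem blkL3 : chkL 27 512 131072 0 39476145 rowsL 25 9 = true := by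
  decide +kernel

set_option maxRecDepth 100000 in
theorem blkL4 : chkL 27 512 131072 0 39476145 rowsL 34 8 = true := by
  decide +kernel

set_option maxRecDepth 100000 in
theorem blkL5 : chkL 27 512 131072 0 39476145 rowsL 42 9 = true := by
  decide +kernel

set_option maxRecDepth 100000 in
theorem blkL6 : chkL 27 512 131072 0 39476145 rowsL 51 9 = true := by
  decide +kernel

set_option maxRecDepth 100000 in
theorem blkL7 : chkL 27 512 131072 0 39476145 rowsL 60 9 = true := by
  decide +kernel

end Pool.Agent.F1D
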