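import Pool.Agent.Lib.MP_f1d828_lc.ChkDef
import Pool.Agent.Lib.MP_f1d828_lc.TabL

set_option autoImplicit false

namespace Pool.Agent.F1D

set_option maxRecDepth 100000 in
theorem blkL8 : chkL 27 512 131072 0 39476145 rowsL 69 10 = true := by
  decide +kernel

set_option maxRecDepth 100000 in
theorem blkL9 : chkL 27 512 131072 0 39476145 rowsL 79 9 = true := by
  decide +kernel

set_option maxRecDepth 100000 in
theorem blkL10 : chkL 27 512 131072 0 39476145 rowsL 88 10 = true := by
  decide +kernel

set_option maxRecDepth 100000 in
theorem blkL11 : chkL 27 512 131072 0 39476145 rowsL 98 10 = true := by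
  decide +kernel

set_option maxRecDepth 100000 in
theorem blkL12 : chkL 27 512 131072 0 39476145 rowsL 108 10 = true := by
  decide +kernel

set_option maxRecDepth 100000 in
theorem blkL13 : chkL 27 512 131072 0 39476145 rowsL 118 11 = true := by
  decide +kernel

set_option maxRecDepth 100000 in
theorem blkL14 : chkL 27 512 131072 0 39476145 rowsL 129 10 = true := by
  decide +kernel

set_option maxRecDepth 100000 in
theorem blkL15 : chkL 27 512 131072 0 39476145 rowsL 139 12 = true := by
  decide +kernel

end Pool.Agent.F1D
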