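import Pool.Agent.Lib.MP_f1d828_lc.ChkDef
import Pool.Agent.Lib.MP_f1d828_lc.TabL

set_option autoImplicit false

namespace Pool.Agent.F1D

set_option maxRecDepth 100000 in
theorem blkL16 : chkL 27 512 131072 0 39476145 rowsL 151 11 = true := by
  decide +kernel

set_option maxRecDepth 100000 in
theorem blkL17 : chkL 27 512 131072 0 39476145 rowsL 162 12 = true := by
  decide +kernel

set_option maxRecDepth 100000 in
theorem blkL18 : chkL 27 512 131072 0 39476145 rowsL 174 12 = true := by
  decide +kernel

set_option maxRecDepth 100000 in
theorem blkL19 : chkL 27 512 131072 0 39476145 rowsL 186 13 = true := by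
  decide +kernel

set_option maxRecDepth 100000 in
theorem blkL20 : chkL 27 512 131072 0 39476145 rowsL 199 14 = true := by
  decide +kernel

set_option maxRecDepth 100000 in
theorem blkL21 : chkL 27 512 131072 0 39476145 rowsL 213 14 = true := by
  decide +kernel

set_option maxRecDepth 100000 in
theorem blkL22 : chkL 27 512 131072 0 39476145 rowsL 227 14 = true := by
  decide +kernel

set_option maxRecDepth 100000 in
theorem blkL23 : chkL 27 512 131072 0 39476145 rowsL 241 16 = true := by
  decide +kernel

end Pool.Agent.F1D
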