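import Pool.Agent.Lib.MP_f1d828_lc.ChkDef
import Pool.Agent.Lib.MP_f1d828_lc.TabL

set_option autoImplicit false

namespace Pool.Agent.F1D

set_option maxRecDepth 100000 in
theorem blkL24 : chkL 27 512 131072 0 39476145 rowsL 257 16 = true := by
  decide +kernel

set_option maxRecDepth 100000 in
theorem blkL25 : chkL 27 512 131072 0 39476145 rowsL 273 18 = true := by
  decide +kernel

set_option maxRecDepth 100000 in
theorem blkL26 : chkL 27 512 131072 0 39476145 rowsL 291 19 = true := by
  decide +kernel

set_option maxRecDepth 100000 in
theorem blkL27 : chkL 27 512 131072 0 39476145 rowsL 310 22 = true := by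
  decide +kernel

set_option maxRecDepth 100000 in
theorem blkL28 : chkL 27 512 131072 0 39476145 rowsL 332 24 = true := by
  decide +kernel

set_option maxRecDepth 100000 in
theorem blkL29 : chkL 27 512 131072 0 39476145 rowsL 356 29 = true := by
  decide +kernel

set_option maxRecDepth 100000 in
theorem blkL30 : chkL 27 512 131072 0 39476145 rowsL 385 37 = true := by
  decide +kernel

set_option maxRecDepth 100000 in
theorem blkL31 : chkL 27 512 131072 0 39476145 rowsL 422 90 = true := by
  decide +kernel

end Pool.Agent.F1D
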