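import Pool.Agent.Lib.MP_f1d828_lc.ChkDef
import Pool.Agent.Lib.MP_f1d828_lc.TabU

set_option autoImplicit false

namespace Pool.Agent.F1D

set_option maxRecDepth 100000 in
theorem blkU0 : chkU 27 512 131072 1 39553879 rowsU 0 9 = true := by
  decide +kernel

set_option maxRecDepth 100000 in
theorem blkU1 : chkU 27 512 131072 1 39553879 rowsU 9 8 = true := by
  decide +kernel

set_option maxRecDepth 100000 in
theorem blkU2 : chkU 27 512 131072 1 39553879 rowsU 17 8 = true := by
  decide +kernel

set_option maxRecDepth 100000 in
theorem blkU3 : chkU 27 512 131072 1 39553879 rowsU 25 9 = true := by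
  decide +kernel

set_option maxRecDepth 100000 in
theorem blkU4 : chkU 27 512 131072 1 39553879 rowsU 34 8 = true := by
  decide +kernel

set_option maxRecDepth 100000 in
theorem blkU5 : chkU 27 512 131072 1 39553879 rowsU 42 9 = true := by
  decide +kernel

set_option maxRecDepth 100000 in
theorem blkU6 : chkU 27 512 131072 1 39553879 rowsU 51 9 = true := by
  decide +kernel

set_option maxRecDepth 100000 in
theorem blkU7 : chkU 27 512 131072 1 39553879 rowsU 60 9 = true := by
  decide +kernel

end Pool.Agent.F1D
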