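import Pool.Agent.Lib.MP_f1d828_lc.ChkDef
import Pool.Agent.Lib.MP_f1d828_lc.TabU

set_option autoImplicit false

namespace Pool.Agent.F1D

set_option maxRecDepth 100000 in
theorem blkU8 : chkU 27 512 131072 1 39553879 rowsU 69 10 = true := by
  decide +kernel

set_option maxRecDepth 100000 in
theorem blkU9 : chkU 27 512 131072 1 39553879 rowsU 79 9 = true := by
  decide +kernel

set_option maxRecDepth 100000 in
theorem blkU10 : chkU 27 512 131072 1 39553879 rowsU 88 10 = true := by
  decide +kernel

set_option maxRecDepth 100000 in
theorem blkU11 : chkU 27 512 131072 1 39553879 rowsU 98 10 = true := by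
  decide +kernel

set_option maxRecDepth 100000 in
theorem blkU12 : chkU 27 512 131072 1 39553879 rowsU 108 10 = true := by
  decide +kernel

set_option maxRecDepth 100000 in
theorem blkU13 : chkU 27 512 131072 1 39553879 rowsU 118 11 = true := by
  decide +kernel

set_option maxRecDepth 100000 in
theorem blkU14 : chkU 27 512 131072 1 39553879 rowsU 129 10 = true := by
  decide +kernel

set_option maxRecDepth 100000 in
theorem blkU15 : chkU 27 512 131072 1 39553879 rowsU 139 12 = true := by
  decide +kernel

end Pool.Agent.F1D
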