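import Pool.Agent.Lib.MP_f1d828_lc.ChkDef
import Pool.Agent.Lib.MP_f1d828_lc.TabU

set_option autoImplicit false

namespace Pool.Agent.F1D

set_option maxRecDepth 100000 in
theorem blkU16 : chkU 27 512 131072 1 39553879 rowsU 151 11 = true := by
  decide +kernel

set_option maxRecDepth 100000 in
theorem blkU17 : chkU 27 512 131072 1 39553879 rowsU 162 12 = true := by
  decide +kernel

set_option maxRecDepth 100000 in
theorem blkU18 : chkU 27 512 131072 1 39553879 rowsU 174 12 = true := by
  decide +kernel

set_option maxRecDepth 100000 in
theorem blkU19 : chkU 27 512 131072 1 39553879 rowsU 186 13 = true := by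
  decide +kernel

set_option maxRecDepth 100000 in
theorem blkU20 : chkU 27 512 131072 1 39553879 rowsU 199 14 = true := by
  decide +kernel

set_option maxRecDepth 100000 in
theorem blkU21 : chkU 27 512 131072 1 39553879 rowsU 213 14 = true := by
  decide +kernel

set_option maxRecDepth 100000 in
theorem blkU22 : chkU 27 512 131072 1 39553879 rowsU 227 14 = true := by
  decide +kernel

set_option maxRecDepth 100000 in
theorem blkU23 : chkU 27 512 131072 1 39553879 rowsU 241 16 = true := by
  decide +kernel

end Pool.Agent.F1D
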