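import Pool.Agent.Lib.MP_f1d828_lc.ChkDef
import Pool.Agent.Lib.MP_f1d828_lc.TabU

set_option autoImplicit false

namespace Pool.Agent.F1D

set_option maxRecDepth 100000 in
theorem blkU24 : chkU 27 512 131072 1 39553879 rowsU 257 16 = true := by
  decide +kernel

set_option maxRecDepth 100000 in
theorem blkU25 : chkU 27 512 131072 1 39553879 rowsU 273 18 = true := by
  decide +kernel

set_option maxRecDepth 100000 in
theorem blkU26 : chkU 27 512 131072 1 39553879 rowsU 291 19 = true := by
  decide +kernel

set_option maxRecDepth 100000 in
theorem blkU27 : chkU 27 512 131072 1 39553879 rowsU 310 22 = true := by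
  decide +kernel

set_option maxRecDepth 100000 in
theorem blkU28 : chkU 27 512 131072 1 39553879 rowsU 332 24 = true := by
  decide +kernel

set_option maxRecDepth 100000 in
theorem blkU29 : chkU 27 512 131072 1 39553879 rowsU 356 29 = true := by
  decide +kernel

set_option maxRecDepth 100000 in
theorem blkU30 : chkU 27 512 131072 1 39553879 rowsU 385 37 = true := by
  decide +kernel

set_option maxRecDepth 100000 in
theorem blkU31 : chkU 27 512 131072 1 39553879 rowsU 422 90 = true := by
  decide +kernel

end Pool.Agent.F1D
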