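import Pool.Agent.Lib.MP_f1d828_lc.Chk

/-! From the Boolean checks to the inequalities for the table of potentials. -/

namespace Pool.Agent.F1D

/-- the table -/
def tab (w1 : ℕ) (rows : List ℕ) (a b : ℕ) : ℕ := dig (w1 + 1) (rows.getD a 0) b

theorem rr_eq (w1 m : ℕ) : rr (w1 + 1) m = pk (w1 + 1) m (fun _ => 1) :=
  pk_rep' (by omega) m

theorem rowOK {w1 m D : ℕ} (hm : 2 ≤ m) {rows : List ℕ} (hlen : rows.length = m)
    (h : chkRows w1 m D rows = true) (a : ℕ) (ha : a < m) : RowOK w1 m D (rows.getD a 0) := by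
  unfold chkRows at h
  rw [List.all_eq_true] at h
  have hmem : rows.getD a 0 ∈ rows := by
    rw [List.getD_eq_getElem _ _ (by omega)]
    exact List.getElem_mem _
  have h1 := h _ hmem
  rw [rr_eq, ← pk_const] at h1
  obtain ⟨q1, q2, q3, q4⟩ := testRow_spec hm h1
  exact ⟨q1, q2, q3, q4⟩

theorem opt4_comm {m D δ : ℕ} {H : ℕ → ℕ → ℕ} (a b j : ℕ) :
    opt4 m D δ H b a j ≤ opt4 m D δ H a b j := by
  unfold opt4
  split_ifs <;> omega

theorem opt4_comm' {m D δ : ℕ} {H : ℕ → ℕ → ℕ} (a b j : ℕ) :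
    opt4 m D δ H b a j = opt4 m D δ H a b j :=
  le_antisymm (opt4_comm a b j) (opt4_comm b a j)

private theorem mod_dig (w P b : ℕ) :
    Nat.mod (Nat.shiftRight P (w * b)) (Nat.succ (2 ^ w - 1)) = dig w P b := by
  have h : Nat.succ (2 ^ w - 1) = 2 ^ w := by
    have : 1 ≤ 2 ^ w := Nat.one_le_two_pow
    omega
  rw [h]
  show (P >>> (w * b)) % 2 ^ w = _
  rw [Nat.shiftRight_eq_div_pow]
  rfl

/-- the properties of the table, lower bound -/
structure CertL (m D MC : ℕ) (H : ℕ → ℕ → ℕ) : Prop where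
  symm : ∀ a < m, ∀ b < m, H a b = H b a
  last : ∀ a < m, ∀ b < m, H a b ≤ H a (m - 1)
  main : ∀ a < m, ∀ b < m, m * H a b + MC ≤ ∑ j ∈ Finset.range m, opt4 m D 0 H a b j

/-- the properties of the table, upper bound -/
structure CertU (m D MC : ℕ) (H : ℕ → ℕ → ℕ) : Prop where
  symm : ∀ a < m, ∀ b < m, H a b = H b a
  main : ∀ a < m, ∀ b < m, ∑ j ∈ Finset.range m, opt4 m D 1 H a b j ≤ m * H a b + MC

theorem certL {w1 m D MC : ℕ} (hm : 2 ≤ m) {rows : List ℕ} (hlen : rows.length = m)
    (hrow : chkRows w1 m D rows = true)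
    (h : ∀ a < m, ∃ a0 n, a0 ≤ a ∧ a < a0 + n ∧ chkL w1 m D 0 MC rows a0 n = true) :
    CertL m D MC (tab w1 rows) := by
  have hOK := rowOK hm hlen hrow
  have pair : ∀ a b, a ≤ b → b < m → tab w1 rows a b = tab w1 rows b a ∧
      m * tab w1 rows a b + MC ≤ ∑ j ∈ Finset.range m, opt4 m D 0 (tab w1 rows) a b j := by
    intro a b hab hb
    obtain ⟨a0, n, h1, h2, h3⟩ := h a (by omega)
    unfold chkL at h3
    have h4 := outerR_spec _ _ _ _ _ h3 (a - a0) (by omega) (b - a0) (by omega)
      (by rw [List.length_drop]; omega)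
    have e1 : (w1 + 1) * a0 + (w1 + 1) * (a - a0) = (w1 + 1) * a := by
      rw [← Nat.mul_add]; congr 1; omega
    have e2 : (w1 + 1) * a0 + (w1 + 1) * (b - a0) = (w1 + 1) * b := by
      rw [← Nat.mul_add]; congr 1; omega
    have e3 : ∀ c, a0 ≤ c → (rows.drop a0).getD (c - a0) 0 = rows.getD c 0 := by
      intro c hc
      rw [List.getD_eq_getElem?_getD, List.getElem?_drop, List.getD_eq_getElem?_getD]
      congr 2; omega
    rw [e1, e2, e3 a h1, e3 b (by omega)] at h4
    unfold testL at h4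
    rw [mod_dig, mod_dig] at h4
    have g1 : Nat.beq (dig (w1 + 1) (rows.getD a 0) b) (dig (w1 + 1) (rows.getD b 0) a) = true := by
      by_contra hne
      rw [Bool.not_eq_true] at hne
      rw [hne] at h4
      exact absurd h4 (by simp)
    rw [g1] at h4
    refine ⟨Nat.eq_of_beq_eq_true g1, ?_⟩
    have h5 := Nat.le_of_ble_eq_true h4
    rw [rr_eq, ← pk_const, ← pk_const, ← pk_const,
      psumR_spec (by norm_num) (by omega) hb (hOK a (by omega)) (hOK b hb)] at h5
    exact h5
  refine ⟨?_, ?_, ?_⟩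
  · intro a ha b hb
    rcases le_total a b with hab | hab
    · exact (pair a b hab hb).1
    · exact (pair b a hab ha).1.symm
  · intro a ha b hb
    exact (hOK a ha).le_last b hb
  · intro a ha b hb
    rcases le_total a b with hab | hab
    · exact (pair a b hab hb).2
    · have := pair b a hab ha
      rw [← this.1]
      simp only [opt4_comm' b a] at this ⊢
      exact this.2

theorem certU {w1 m D MC : ℕ} (hm : 2 ≤ m) {rows : List ℕ} (hlen : rows.length = m)
    (hrow : chkRows w1 m D rows = true)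
    (h : ∀ a < m, ∃ a0 n, a0 ≤ a ∧ a < a0 + n ∧ chkU w1 m D 1 MC rows a0 n = true) :
    CertU m D MC (tab w1 rows) := by
  have hOK := rowOK hm hlen hrow
  have pair : ∀ a b, a ≤ b → b < m → tab w1 rows a b = tab w1 rows b a ∧
      ∑ j ∈ Finset.range m, opt4 m D 1 (tab w1 rows) a b j ≤ m * tab w1 rows a b + MC := by
    intro a b hab hb
    obtain ⟨a0, n, h1, h2, h3⟩ := h a (by omega)
    unfold chkU at h3
    have h4 := outerR_spec _ _ _ _ _ h3 (a - a0) (by omega) (b - a0) (by omega)
      (by rw [List.length_drop]; omega)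
    have e1 : (w1 + 1) * a0 + (w1 + 1) * (a - a0) = (w1 + 1) * a := by
      rw [← Nat.mul_add]; congr 1; omega
    have e2 : (w1 + 1) * a0 + (w1 + 1) * (b - a0) = (w1 + 1) * b := by
      rw [← Nat.mul_add]; congr 1; omega
    have e3 : ∀ c, a0 ≤ c → (rows.drop a0).getD (c - a0) 0 = rows.getD c 0 := by
      intro c hc
      rw [List.getD_eq_getElem?_getD, List.getElem?_drop, List.getD_eq_getElem?_getD]
      congr 2; omega
    rw [e1, e2, e3 a h1, e3 b (by omega)] at h4
    unfold testU at h4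
    rw [mod_dig, mod_dig] at h4
    have g1 : Nat.beq (dig (w1 + 1) (rows.getD a 0) b) (dig (w1 + 1) (rows.getD b 0) a) = true := by
      by_contra hne
      rw [Bool.not_eq_true] at hne
      rw [hne] at h4
      exact absurd h4 (by simp)
    rw [g1] at h4
    refine ⟨Nat.eq_of_beq_eq_true g1, ?_⟩
    have h5 := Nat.le_of_ble_eq_true h4
    rw [rr_eq, ← pk_const, ← pk_const, ← pk_const,
      psumR_spec (by norm_num) (by omega) hb (hOK a (by omega)) (hOK b hb)] at h5
    exact h5
  refine ⟨?_, ?_⟩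
  · intro a ha b hb
    rcases le_total a b with hab | hab
    · exact (pair a b hab hb).1
    · exact (pair b a hab ha).1.symm
  · intro a ha b hb
    rcases le_total a b with hab | hab
    · exact (pair a b hab hb).2
    · have := pair b a hab ha
      rw [← this.1]
      simp only [opt4_comm' b a] at this ⊢
      exact this.2

end Pool.Agent.F1D
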