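import Pool.Agent.Lib.MP_f1d828_lc.BlkL0
import Pool.Agent.Lib.MP_f1d828_lc.BlkL1
import Pool.Agent.Lib.MP_f1d828_lc.BlkL2
import Pool.Agent.Lib.MP_f1d828_lc.BlkL3
import Pool.Agent.Lib.MP_f1d828_lc.BlkU0
import Pool.Agent.Lib.MP_f1d828_lc.BlkU1
import Pool.Agent.Lib.MP_f1d828_lc.BlkU2
import Pool.Agent.Lib.MP_f1d828_lc.BlkU3
import Pool.Agent.Lib.MP_f1d828_lc.Cert

/-! The two certified tables. -/

namespace Pool.Agent.F1D

set_option maxRecDepth 100000 in
theorem rowsL_len : rowsL.length = 512 := by decide +kernel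

set_option maxRecDepth 100000 in
theorem rowsL_ok : chkRows 27 512 131072 rowsL = true := by decide +kernel

theorem certL512 : CertL 512 131072 39476145 (tab 27 rowsL) := by
  refine certL (by norm_num) rowsL_len rowsL_ok ?_
  intro a ha
  by_cases h0 : a < 9
  · exact ⟨0, 9, by omega, by omega, blkL0⟩
  by_cases h1 : a < 17
  · exact ⟨9, 8, by omega, by omega, blkL1⟩
  by_cases h2 : a < 25
  · exact ⟨17, 8, by omega, by omega, blkL2⟩
  by_cases h3 : a < 34
  · exact ⟨25, 9, by omega, by omega, blkL3⟩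
  by_cases h4 : a < 42
  · exact ⟨34, 8, by omega, by omega, blkL4⟩
  by_cases h5 : a < 51
  · exact ⟨42, 9, by omega, by omega, blkL5⟩
  by_cases h6 : a < 60
  · exact ⟨51, 9, by omega, by omega, blkL6⟩
  by_cases h7 : a < 69
  · exact ⟨60, 9, by omega, by omega, blkL7⟩
  by_cases h8 : a < 79
  · exact ⟨69, 10, by omega, by omega, blkL8⟩
  by_cases h9 : a < 88
  · exact ⟨79, 9, by omega, by omega, blkL9⟩
  by_cases h10 : a < 98
  · exact ⟨88, 10, by omega, by omega, blkL10⟩
  by_cases h11 : a < 108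
  · exact ⟨98, 10, by omega, by omega, blkL11⟩
  by_cases h12 : a < 118
  · exact ⟨108, 10, by omega, by omega, blkL12⟩
  by_cases h13 : a < 129
  · exact ⟨118, 11, by omega, by omega, blkL13⟩
  by_cases h14 : a < 139
  · exact ⟨129, 10, by omega, by omega, blkL14⟩
  by_cases h15 : a < 151
  · exact ⟨139, 12, by omega, by omega, blkL15⟩
  by_cases h16 : a < 162
  · exact ⟨151, 11, by omega, by omega, blkL16⟩
  by_cases h17 : a < 174
  · exact ⟨162, 12, by omega, by omega, blkL17⟩
  by_cases h18 : a < 186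
  · exact ⟨174, 12, by omega, by omega, blkL18⟩
  by_cases h19 : a < 199
  · exact ⟨186, 13, by omega, by omega, blkL19⟩
  by_cases h20 : a < 213
  · exact ⟨199, 14, by omega, by omega, blkL20⟩
  by_cases h21 : a < 227
  · exact ⟨213, 14, by omega, by omega, blkL21⟩
  by_cases h22 : a < 241
  · exact ⟨227, 14, by omega, by omega, blkL22⟩
  by_cases h23 : a < 257
  · exact ⟨241, 16, by omega, by omega, blkL23⟩
  by_cases h24 : a < 273
  · exact ⟨257, 16, by omega, by omega, blkL24⟩
  by_cases h25 : a < 291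
  · exact ⟨273, 18, by omega, by omega, blkL25⟩
  by_cases h26 : a < 310
  · exact ⟨291, 19, by omega, by omega, blkL26⟩
  by_cases h27 : a < 332
  · exact ⟨310, 22, by omega, by omega, blkL27⟩
  by_cases h28 : a < 356
  · exact ⟨332, 24, by omega, by omega, blkL28⟩
  by_cases h29 : a < 385
  · exact ⟨356, 29, by omega, by omega, blkL29⟩
  by_cases h30 : a < 422
  · exact ⟨385, 37, by omega, by omega, blkL30⟩
  exact ⟨422, 90, by omega, by omega, blkL31⟩

set_option maxRecDepth 100000 in
theorem rowsU_len : rowsU.length = 512 := by decide +kernel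

set_option maxRecDepth 100000 in
theorem rowsU_ok : chkRows 27 512 131072 rowsU = true := by decide +kernel

theorem certU512 : CertU 512 131072 39553879 (tab 27 rowsU) := by
  refine certU (by norm_num) rowsU_len rowsU_ok ?_
  intro a ha
  by_cases h0 : a < 9
  · exact ⟨0, 9, by omega, by omega, blkU0⟩
  by_cases h1 : a < 17
  · exact ⟨9, 8, by omega, by omega, blkU1⟩
  by_cases h2 : a < 25
  · exact ⟨17, 8, by omega, by omega, blkU2⟩
  by_cases h3 : a < 34
  · exact ⟨25, 9, by omega, by omega, blkU3⟩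
  by_cases h4 : a < 42
  · exact ⟨34, 8, by omega, by omega, blkU4⟩
  by_cases h5 : a < 51
  · exact ⟨42, 9, by omega, by omega, blkU5⟩
  by_cases h6 : a < 60
  · exact ⟨51, 9, by omega, by omega, blkU6⟩
  by_cases h7 : a < 69
  · exact ⟨60, 9, by omega, by omega, blkU7⟩
  by_cases h8 : a < 79
  · exact ⟨69, 10, by omega, by omega, blkU8⟩
  by_cases h9 : a < 88
  · exact ⟨79, 9, by omega, by omega, blkU9⟩
  by_cases h10 : a < 98
  · exact ⟨88, 10, by omega, by omega, blkU10⟩
  by_cases h11 : a < 108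
  · exact ⟨98, 10, by omega, by omega, blkU11⟩
  by_cases h12 : a < 118
  · exact ⟨108, 10, by omega, by omega, blkU12⟩
  by_cases h13 : a < 129
  · exact ⟨118, 11, by omega, by omega, blkU13⟩
  by_cases h14 : a < 139
  · exact ⟨129, 10, by omega, by omega, blkU14⟩
  by_cases h15 : a < 151
  · exact ⟨139, 12, by omega, by omega, blkU15⟩
  by_cases h16 : a < 162
  · exact ⟨151, 11, by omega, by omega, blkU16⟩
  by_cases h17 : a < 174
  · exact ⟨162, 12, by omega, by omega, blkU17⟩
  by_cases h18 : a < 186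
  · exact ⟨174, 12, by omega, by omega, blkU18⟩
  by_cases h19 : a < 199
  · exact ⟨186, 13, by omega, by omega, blkU19⟩
  by_cases h20 : a < 213
  · exact ⟨199, 14, by omega, by omega, blkU20⟩
  by_cases h21 : a < 227
  · exact ⟨213, 14, by omega, by omega, blkU21⟩
  by_cases h22 : a < 241
  · exact ⟨227, 14, by omega, by omega, blkU22⟩
  by_cases h23 : a < 257
  · exact ⟨241, 16, by omega, by omega, blkU23⟩
  by_cases h24 : a < 273
  · exact ⟨257, 16, by omega, by omega, blkU24⟩
  by_cases h25 : a < 291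
  · exact ⟨273, 18, by omega, by omega, blkU25⟩
  by_cases h26 : a < 310
  · exact ⟨291, 19, by omega, by omega, blkU26⟩
  by_cases h27 : a < 332
  · exact ⟨310, 22, by omega, by omega, blkU27⟩
  by_cases h28 : a < 356
  · exact ⟨332, 24, by omega, by omega, blkU28⟩
  by_cases h29 : a < 385
  · exact ⟨356, 29, by omega, by omega, blkU29⟩
  by_cases h30 : a < 422
  · exact ⟨385, 37, by omega, by omega, blkU30⟩
  exact ⟨422, 90, by omega, by omega, blkU31⟩

end Pool.Agent.F1D
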