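import Pool.Agent.Lib.MP_f1d828_lc.Pack

/-! A checker (written with raw operations on natural numbers, so that it runs fast inside the
kernel) for the inequalities between a table of potentials and the four options of a packer. -/

namespace Pool.Agent.F1D

/-- cheapest of the four options: (close one of the two bins and open a new one with level `j`:
two options) or (put the item into one of the two bins, if it fits). -/
def opt4 (m D δ : ℕ) (H : ℕ → ℕ → ℕ) (a b j : ℕ) : ℕ :=
  min (min (D + H a j) (D + H b j))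
    (min (if a + j + δ < m then H b (a + j + δ) else D + H a j)
      (if b + j + δ < m then H a (b + j + δ) else D + H a j))

theorem innerR_spec (T : ℕ → ℕ → Bool) (w : ℕ) : ∀ (L : List ℕ) (sb : ℕ), innerR T w L sb = true →
    ∀ i < L.length, T (sb + w * i) (L.getD i 0) = true
  | [], _, _, i, hi => by simp at hi
  | P :: L, sb, h, i, hi => by
      have hT : T sb P = true := by
        cases hh : T sb P
        · exfalso
          have : innerR T w (P :: L) sb = false := by
            show Bool.rec (motive := fun _ => Bool) false (innerR T w L (Nat.add sb w)) (T sb P) = false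
            rw [hh]
          rw [this] at h
          exact absurd h (by simp)
        · rfl
      have hr : innerR T w L (Nat.add sb w) = true := by
        have : innerR T w (P :: L) sb = innerR T w L (Nat.add sb w) := by
          show Bool.rec (motive := fun _ => Bool) false (innerR T w L (Nat.add sb w)) (T sb P) = _
          rw [hT]
        rw [← this]; exact h
      cases i with
      | zero => simpa using hT
      | succ i =>
        have := innerR_spec T w L (Nat.add sb w) hr i (by simpa using hi)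
        have e : sb + w * (i + 1) = Nat.add sb w + w * i := by
          show sb + w * (i + 1) = (sb + w) + w * i
          ring
        rw [e]
        simpa using this

theorem outerR_spec (T : ℕ → ℕ → ℕ → ℕ → Bool) (w : ℕ) : ∀ (n : ℕ) (L : List ℕ) (sa : ℕ),
    outerR T w n L sa = true → ∀ i < n, ∀ k, i ≤ k → k < L.length →
      T (sa + w * i) (L.getD i 0) (sa + w * k) (L.getD k 0) = true
  | 0, _, _, _, i, hi => by omega
  | n + 1, [], _, _, i, hi => by simp
  | n + 1, P :: L, sa, h, i, hi => by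
      intro k hik hk
      have hT : innerR (T sa P) w (P :: L) sa = true := by
        cases hh : innerR (T sa P) w (P :: L) sa
        · exfalso
          have : outerR T w (n + 1) (P :: L) sa = false := by
            show Bool.rec (motive := fun _ => Bool) false (outerR T w n L (Nat.add sa w)) (innerR (T sa P) w (P :: L) sa)
              = false
            rw [hh]
          rw [this] at h
          exact absurd h (by simp)
        · rfl
      have hr : outerR T w n L (Nat.add sa w) = true := by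
        have : outerR T w (n + 1) (P :: L) sa = outerR T w n L (Nat.add sa w) := by
          show Bool.rec (motive := fun _ => Bool) false (outerR T w n L (Nat.add sa w)) (innerR (T sa P) w (P :: L) sa) = _
          rw [hT]
        rw [← this]; exact h
      cases i with
      | zero => simpa using innerR_spec (T sa P) w (P :: L) sa hT k hk
      | succ i =>
        obtain ⟨k, rfl⟩ : ∃ k', k = k' + 1 := ⟨k - 1, by omega⟩
        have := outerR_spec T w n L (Nat.add sa w) hr i (by omega) k (by omega) (by simpa using hk)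
        have e : ∀ i, sa + w * (i + 1) = Nat.add sa w + w * i := by
          intro i
          show sa + w * (i + 1) = (sa + w) + w * i
          ring
        rw [e, e]
        simpa using this

theorem testRow_spec {w1 m D P : ℕ} (hm : 2 ≤ m)
    (h : testRow m D (pk (w1 + 1) m (fun _ => 2 ^ w1)) (pk (w1 + 1) m (fun _ => 1))
      (2 ^ ((w1 + 1) * m)) (2 ^ (w1 + 1) - 1) ((w1 + 1) * (m - 1)) P = true) :
    P < 2 ^ ((w1 + 1) * m) ∧ (∀ j < m, dig (w1 + 1) P j ≤ dig (w1 + 1) P (m - 1)) ∧
      m * (D + dig (w1 + 1) P (m - 1)) < 2 ^ (w1 + 1) - 1 ∧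
      D + dig (w1 + 1) P (m - 1) < 2 ^ w1 := by
  have hp1 : 1 ≤ 2 ^ (w1 + 1) := Nat.one_le_two_pow
  have hp : 1 ≤ 2 ^ w1 := Nat.one_le_two_pow
  have hsucc : Nat.succ (2 ^ (w1 + 1) - 1) = 2 ^ (w1 + 1) := by omega
  unfold testRow at h
  rw [hsucc] at h
  simp only [Bool.and_eq_true] at h
  obtain ⟨⟨h1, h2⟩, h3, h4⟩ := h
  have h1' : P < 2 ^ ((w1 + 1) * m) := Nat.le_of_ble_eq_true h1
  have h2' : P &&& pk (w1 + 1) m (fun _ => 2 ^ w1) = 0 := Nat.eq_of_beq_eq_true h2
  have hdig : Nat.mod (Nat.shiftRight P ((w1 + 1) * (m - 1))) (2 ^ (w1 + 1)) =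
      dig (w1 + 1) P (m - 1) := by
    show (P >>> ((w1 + 1) * (m - 1))) % 2 ^ (w1 + 1) = _
    rw [Nat.shiftRight_eq_div_pow]
    rfl
  rw [hdig] at h3 h4
  have h4' : m * (D + dig (w1 + 1) P (m - 1)) < 2 ^ (w1 + 1) - 1 := Nat.le_of_ble_eq_true h4
  have h3' := Nat.eq_of_beq_eq_true h3
  have hP : pk (w1 + 1) m (dig (w1 + 1) P) = P := pk_dig m P h1'
  have hlow : ∀ j < m, dig (w1 + 1) P j < 2 ^ w1 := by
    intro j hj
    rw [← hP, pk_land m _ _ (fun j _ => dig_lt _ _ _)
      (fun j _ => by rw [pow_succ]; omega)] at h2'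
    have := dig_pk (w := w1 + 1) (K := m)
      (f := fun j => dig (w1 + 1) P j &&& 2 ^ w1)
      (fun j _ => Nat.and_lt_two_pow _ (by rw [pow_succ]; omega)) hj
    rw [h2'] at this
    have h0 : dig (w1 + 1) 0 j = 0 := by simp [dig]
    rw [h0] at this
    have hl := land_guard (dig_lt (w1 + 1) P j)
    by_contra hcon
    rw [if_pos (by omega)] at hl
    omega
  refine ⟨h1', ?_, h4', ?_⟩
  · intro j hj
    have e1 : Nat.mul (dig (w1 + 1) P (m - 1)) (pk (w1 + 1) m (fun _ => 1)) =
        pk (w1 + 1) m (fun _ => dig (w1 + 1) P (m - 1)) := (pk_const m _).symm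
    rw [e1] at h3'
    have e2 : Nat.land (Nat.sub (Nat.add (pk (w1 + 1) m (fun _ => 2 ^ w1))
        (pk (w1 + 1) m (fun _ => dig (w1 + 1) P (m - 1)))) P) (pk (w1 + 1) m (fun _ => 2 ^ w1)) =
        pk (w1 + 1) m (fun j => (2 ^ w1 + dig (w1 + 1) P (m - 1) - dig (w1 + 1) P j) &&& 2 ^ w1) := by
      have e3 : Nat.sub (Nat.add (pk (w1 + 1) m (fun _ => 2 ^ w1))
          (pk (w1 + 1) m (fun _ => dig (w1 + 1) P (m - 1)))) P =
          pk (w1 + 1) m (fun _ => 2 ^ w1) + pk (w1 + 1) m (fun _ => dig (w1 + 1) P (m - 1)) -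
          pk (w1 + 1) m (dig (w1 + 1) P) := by rw [hP]; rfl
      rw [e3]
      show (pk (w1 + 1) m (fun _ => 2 ^ w1) + pk (w1 + 1) m (fun _ => dig (w1 + 1) P (m - 1)) -
        pk (w1 + 1) m (dig (w1 + 1) P)) &&& pk (w1 + 1) m (fun _ => 2 ^ w1) = _
      rw [pk_add, pk_sub, pk_land]
      · intro j hj
        have := hlow (m - 1) (by omega)
        rw [pow_succ]; omega
      · intro j hj
        rw [pow_succ]; omega
      · intro j hj
        have := hlow j hj
        omega
    rw [e2] at h3'
    have hb : ∀ j < m, (2 ^ w1 + dig (w1 + 1) P (m - 1) - dig (w1 + 1) P j) &&& 2 ^ w1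
        < 2 ^ (w1 + 1) := fun j _ => Nat.and_lt_two_pow _ (by rw [pow_succ]; omega)
    have c1 := dig_pk hb hj
    rw [h3'] at c1
    rw [dig_pk (fun j _ => by rw [pow_succ]; omega) hj] at c1
    have hlt : 2 ^ w1 + dig (w1 + 1) P (m - 1) - dig (w1 + 1) P j < 2 ^ (w1 + 1) := by
      have := hlow (m - 1) (by omega)
      rw [pow_succ]; omega
    have hl := land_guard hlt
    by_contra hcon
    rw [if_neg (by omega)] at hl
    omega
  · have : 2 * (D + dig (w1 + 1) P (m - 1)) ≤ m * (D + dig (w1 + 1) P (m - 1)) :=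
      Nat.mul_le_mul_right _ hm
    have : 2 ^ (w1 + 1) = 2 * 2 ^ w1 := by ring
    omega

/-- what the rows must satisfy -/
structure RowOK (w1 m D P : ℕ) : Prop where
  lt : P < 2 ^ ((w1 + 1) * m)
  le_last : ∀ j < m, dig (w1 + 1) P j ≤ dig (w1 + 1) P (m - 1)
  sum_lt : m * (D + dig (w1 + 1) P (m - 1)) < 2 ^ (w1 + 1) - 1
  top : D + dig (w1 + 1) P (m - 1) < 2 ^ w1

theorem psumR_spec {w1 m D δ a b PA PB : ℕ} (hδ : δ ≤ 1) (ha : a < m) (hb : b < m)
    (hA : RowOK w1 m D PA) (hB : RowOK w1 m D PB) :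
    psumR w1 (pk (w1 + 1) m (fun _ => 2 ^ w1)) (pk (w1 + 1) m (fun _ => D)) (2 ^ ((w1 + 1) * m))
      (2 ^ (w1 + 1) - 1) ((w1 + 1) * a) ((w1 + 1) * b) PA PB
      (Nat.shiftRight (Nat.add PA (2 ^ ((w1 + 1) * m) * pk (w1 + 1) m (fun _ => 2 ^ w1 - 1)))
        ((w1 + 1) * δ))
      (Nat.shiftRight (Nat.add PB (2 ^ ((w1 + 1) * m) * pk (w1 + 1) m (fun _ => 2 ^ w1 - 1)))
        ((w1 + 1) * δ)) =
      ∑ j ∈ Finset.range m, min (min (D + dig (w1 + 1) PA j) (D + dig (w1 + 1) PB j))
        (min (if a + j + δ < m then dig (w1 + 1) PB (a + j + δ) else D + dig (w1 + 1) PA j)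
          (if b + j + δ < m then dig (w1 + 1) PA (b + j + δ) else D + dig (w1 + 1) PA j)) := by
  have hp : 1 ≤ 2 ^ w1 := Nat.one_le_two_pow
  have hpow : 2 ^ (w1 + 1) = 2 * 2 ^ w1 := by ring
  have key : ∀ (P c : ℕ), RowOK w1 m D P → c < m →
      Nat.mod (Nat.shiftRight (Nat.shiftRight
        (Nat.add P (2 ^ ((w1 + 1) * m) * pk (w1 + 1) m (fun _ => 2 ^ w1 - 1)))
        ((w1 + 1) * δ)) ((w1 + 1) * c)) (2 ^ ((w1 + 1) * m)) =
      pk (w1 + 1) m (fun j => if c + j + δ < m then dig (w1 + 1) P (c + j + δ) else 2 ^ w1 - 1) := by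
    intro P c hP hc
    set F : ℕ → ℕ := fun i => if i < m then dig (w1 + 1) P i else 2 ^ w1 - 1 with hF
    have hFlt : ∀ i, F i < 2 ^ (w1 + 1) := by
      intro i
      simp only [hF]
      split
      · exact dig_lt _ _ _
      · omega
    have e1 : Nat.add P (2 ^ ((w1 + 1) * m) * pk (w1 + 1) m (fun _ => 2 ^ w1 - 1)) =
        pk (w1 + 1) (m + m) F := by
      rw [pk_append]
      show P + _ = _
      have x1 : pk (w1 + 1) m F = P := by
        conv_rhs => rw [← pk_dig m P hP.lt]
        exact pk_congr (fun j hj => by simp [hF, hj])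
      have x2 : pk (w1 + 1) m (fun j => F (m + j)) = pk (w1 + 1) m (fun _ => 2 ^ w1 - 1) :=
        pk_congr (fun j hj => by simp [hF])
      rw [x1, x2]
    rw [e1]
    show ((pk (w1 + 1) (m + m) F >>> ((w1 + 1) * δ)) >>> ((w1 + 1) * c)) % 2 ^ ((w1 + 1) * m) = _
    rw [← Nat.shiftRight_add, Nat.shiftRight_eq_div_pow]
    have e2 : (w1 + 1) * δ + (w1 + 1) * c = (w1 + 1) * (c + δ) := by ring
    have e3 : m + m = (c + δ) + (m + (m - c - δ)) := by omega
    rw [e2, e3, pk_div _ _ _ (fun j _ => hFlt j), pk_mod _ _ _ (fun j _ => hFlt _)]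
    apply pk_congr
    intro j hj
    simp only [hF]
    have e4 : c + δ + j = c + j + δ := by ring
    rw [e4]
  unfold psumR
  rw [key PB a hB ha, key PA b hA hb]
  have hPA : pk (w1 + 1) m (dig (w1 + 1) PA) = PA := pk_dig m PA hA.lt
  have hPB : pk (w1 + 1) m (dig (w1 + 1) PB) = PB := pk_dig m PB hB.lt
  have dA : ∀ j < m, D + dig (w1 + 1) PA j < 2 ^ w1 := fun j hj => by
    have := hA.le_last j hj; have := hA.top; omega
  have dB : ∀ j < m, D + dig (w1 + 1) PB j < 2 ^ w1 := fun j hj => by
    have := hB.le_last j hj; have := hB.top; omega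
  have s1 : pminR w1 (pk (w1 + 1) m (fun _ => 2 ^ w1)) PA PB =
      pk (w1 + 1) m (fun j => min (dig (w1 + 1) PA j) (dig (w1 + 1) PB j)) := by
    conv_lhs => rw [← hPA, ← hPB]
    exact pminR_spec (fun j hj => by have := dA j hj; omega) (fun j hj => by have := dB j hj; omega)
  have s2 : Nat.add (pk (w1 + 1) m (fun j => min (dig (w1 + 1) PA j) (dig (w1 + 1) PB j)))
      (pk (w1 + 1) m (fun _ => D)) =
      pk (w1 + 1) m (fun j => min (D + dig (w1 + 1) PA j) (D + dig (w1 + 1) PB j)) := by
    show pk (w1 + 1) m (fun j => min (dig (w1 + 1) PA j) (dig (w1 + 1) PB j)) +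
      pk (w1 + 1) m (fun _ => D) = _
    rw [pk_add]
    exact pk_congr (fun j _ => by omega)
  have s3 := pminR_spec (w1 := w1) (K := m)
    (f := fun j => if a + j + δ < m then dig (w1 + 1) PB (a + j + δ) else 2 ^ w1 - 1)
    (g := fun j => if b + j + δ < m then dig (w1 + 1) PA (b + j + δ) else 2 ^ w1 - 1)
    (fun j hj => by
      split
      · rename_i h; have := dB _ h; omega
      · omega)
    (fun j hj => by
      split
      · rename_i h; have := dA _ h; omega
      · omega)
  rw [s1, s2, s3, pminR_spec]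
  · show _ % (2 ^ (w1 + 1) - 1) = _
    rw [pk_modsum]
    have e : ∑ j ∈ Finset.range m, min (min (D + dig (w1 + 1) PA j) (D + dig (w1 + 1) PB j))
        (min (if a + j + δ < m then dig (w1 + 1) PB (a + j + δ) else 2 ^ w1 - 1)
          (if b + j + δ < m then dig (w1 + 1) PA (b + j + δ) else 2 ^ w1 - 1)) =
        ∑ j ∈ Finset.range m, min (min (D + dig (w1 + 1) PA j) (D + dig (w1 + 1) PB j))
        (min (if a + j + δ < m then dig (w1 + 1) PB (a + j + δ) else D + dig (w1 + 1) PA j)
          (if b + j + δ < m then dig (w1 + 1) PA (b + j + δ) else D + dig (w1 + 1) PA j)) := by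
      apply Finset.sum_congr rfl
      intro j hj
      have hj' := Finset.mem_range.mp hj
      have := dA j hj'
      split_ifs <;> omega
    rw [← e]
    apply Nat.mod_eq_of_lt
    refine lt_of_le_of_lt ?_ hA.sum_lt
    calc ∑ j ∈ Finset.range m, _ ≤ ∑ j ∈ Finset.range m, (D + dig (w1 + 1) PA (m - 1)) := by
          apply Finset.sum_le_sum
          intro j hj
          have := hA.le_last j (Finset.mem_range.mp hj)
          omega
      _ = m * (D + dig (w1 + 1) PA (m - 1)) := by simp
  · intro j hj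
    have := dA j hj
    omega
  · intro j hj
    split_ifs
    · rename_i h1 h2; have := dB _ h1; omega
    · rename_i h1 h2; have := dB _ h1; omega
    · rename_i h1 h2; have := dA _ h2; omega
    · omega

end Pool.Agent.F1D
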