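/-! The checker, with raw operations on natural numbers (this file does not need Mathlib). -/

set_option autoImplicit false

namespace Pool.Agent.F1D

/-- the packed minimum -/
def pminR (w1 G X Y : Nat) : Nat :=
  Nat.sub X (Nat.land (Nat.sub (Nat.add X G) Y) (Nat.sub (Nat.land (Nat.sub (Nat.add X G) Y) G)
    (Nat.shiftRight (Nat.land (Nat.sub (Nat.add X G) Y) G) w1)))

/-- sum over the items of the packed minimum of the four options -/
def psumR (w1 G DD M M1 sa sb PA PB QA QB : Nat) : Nat :=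
  Nat.mod (pminR w1 G (Nat.add (pminR w1 G PA PB) DD)
    (pminR w1 G (Nat.mod (Nat.shiftRight QB sa) M) (Nat.mod (Nat.shiftRight QA sb) M))) M1

noncomputable def innerR (T : Nat → Nat → Bool) (w : Nat) (L : List Nat) : Nat → Bool :=
  List.rec (motive := fun _ => Nat → Bool) (fun _ => true)
    (fun PB _ ih sb => Bool.rec false (ih (Nat.add sb w)) (T sb PB)) L

noncomputable def outerR (T : Nat → Nat → Nat → Nat → Bool) (w n : Nat) : List Nat → Nat → Bool :=
  Nat.rec (motive := fun _ => List Nat → Nat → Bool) (fun _ _ => true)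
    (fun _ ih L sa => List.rec (motive := fun _ => Bool) true
      (fun PA rest _ => Bool.rec false (ih rest (Nat.add sa w))
        (innerR (T sa PA) w (PA :: rest) sa)) L) n

/-- the test of one pair, lower bound -/
noncomputable def testL (w1 m G DD INF wd M M1 MC sa PA sb PB : Nat) : Bool :=
  Bool.rec false
    (Nat.ble (Nat.add (Nat.mul m (Nat.mod (Nat.shiftRight PA sb) (Nat.succ M1))) MC)
      (psumR w1 G DD M M1 sa sb PA PB (Nat.shiftRight (Nat.add PA INF) wd)
        (Nat.shiftRight (Nat.add PB INF) wd)))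
    (Nat.beq (Nat.mod (Nat.shiftRight PA sb) (Nat.succ M1))
      (Nat.mod (Nat.shiftRight PB sa) (Nat.succ M1)))

/-- the test of one pair, upper bound -/
noncomputable def testU (w1 m G DD INF wd M M1 MC sa PA sb PB : Nat) : Bool :=
  Bool.rec false
    (Nat.ble (psumR w1 G DD M M1 sa sb PA PB (Nat.shiftRight (Nat.add PA INF) wd)
        (Nat.shiftRight (Nat.add PB INF) wd))
      (Nat.add (Nat.mul m (Nat.mod (Nat.shiftRight PA sb) (Nat.succ M1))) MC))
    (Nat.beq (Nat.mod (Nat.shiftRight PA sb) (Nat.succ M1))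
      (Nat.mod (Nat.shiftRight PB sa) (Nat.succ M1)))

/-- the test of one row (arguments: `w1`, `m`, `D`, `G`, all-ones `r`, `M`, `M1`, `sl = w (m-1)`) -/
def testRow (m D G r M M1 sl P : Nat) : Bool :=
  (Nat.ble (Nat.succ P) M && Nat.beq (Nat.land P G) 0) &&
  (Nat.beq (Nat.land (Nat.sub (Nat.add G (Nat.mul (Nat.mod (Nat.shiftRight P sl) (Nat.succ M1)) r)) P) G) G
    && Nat.ble (Nat.succ (Nat.mul m (Nat.add D (Nat.mod (Nat.shiftRight P sl) (Nat.succ M1))))) M1)

/-- all-ones vector -/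
def rr (w m : Nat) : Nat := (2 ^ (w * m) - 1) / (2 ^ w - 1)

noncomputable def chkL (w1 m D δ MC : Nat) (rows : List Nat) (a0 n : Nat) : Bool :=
  outerR (testL w1 m (2 ^ w1 * rr (w1 + 1) m) (D * rr (w1 + 1) m)
    (2 ^ ((w1 + 1) * m) * ((2 ^ w1 - 1) * rr (w1 + 1) m)) ((w1 + 1) * δ) (2 ^ ((w1 + 1) * m))
    (2 ^ (w1 + 1) - 1) MC) (w1 + 1) n (rows.drop a0) ((w1 + 1) * a0)

noncomputable def chkU (w1 m D δ MC : Nat) (rows : List Nat) (a0 n : Nat) : Bool :=
  outerR (testU w1 m (2 ^ w1 * rr (w1 + 1) m) (D * rr (w1 + 1) m)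
    (2 ^ ((w1 + 1) * m) * ((2 ^ w1 - 1) * rr (w1 + 1) m)) ((w1 + 1) * δ) (2 ^ ((w1 + 1) * m))
    (2 ^ (w1 + 1) - 1) MC) (w1 + 1) n (rows.drop a0) ((w1 + 1) * a0)

def chkRows (w1 m D : Nat) (rows : List Nat) : Bool :=
  rows.all (testRow m D (2 ^ w1 * rr (w1 + 1) m) (rr (w1 + 1) m)
      (2 ^ ((w1 + 1) * m)) (2 ^ (w1 + 1) - 1) ((w1 + 1) * (m - 1)))

end Pool.Agent.F1D
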