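import Pool.Agent.Lib.MP_f1d828_lc.Lower

/-! `E[OPT(L_n)] ~ n/2`. -/

open MeasureTheory Filter
open scoped ENNReal

namespace Pool.Agent.F1D

/-! ### Lower bound -/

theorem opt_spec {n : ℕ} (x : Fin n → ℝ) (hx : ∀ i, x i ∈ Set.Icc (0 : ℝ) 1) :
    ∃ f : Fin n → Fin (opt x), ∀ j, ∑ i with f i = j, x i ≤ 1 := by
  have hne : {b : ℕ | ∃ f : Fin n → Fin b, ∀ j, ∑ i with f i = j, x i ≤ 1}.Nonempty := by
    refine ⟨n, id, fun j => ?_⟩
    have : (Finset.univ.filter fun i : Fin n => id i = j) = {j} := by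
      ext i; simp
    rw [this, Finset.sum_singleton]
    exact (hx j).2
  exact Nat.sInf_mem hne

theorem sum_le_opt {n : ℕ} (x : Fin n → ℝ) (hx : ∀ i, x i ∈ Set.Icc (0 : ℝ) 1) :
    ∑ i, x i ≤ opt x := by
  obtain ⟨f, hf⟩ := opt_spec x hx
  calc ∑ i, x i = ∑ j, ∑ i with f i = j, x i := (Finset.sum_fiberwise _ _ _).symm
    _ ≤ ∑ _j : Fin (opt x), (1 : ℝ) := Finset.sum_le_sum (fun j _ => hf j)
    _ = opt x := by simp

theorem lintegral_id_unif : ∫⁻ y, ENNReal.ofReal y ∂unif = 1 / 2 := by
  unfold unif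
  rw [← ofReal_integral_eq_lintegral_ofReal]
  · rw [integral_Icc_eq_integral_Ioc, ← intervalIntegral.integral_of_le (by norm_num), integral_id]
    rw [show ((1 : ℝ) ^ 2 - 0 ^ 2) / 2 = 2⁻¹ by norm_num, ENNReal.ofReal_inv_of_pos (by norm_num)]
    norm_num
  · exact (continuous_id.integrableOn_Icc)
  · exact (ae_restrict_mem measurableSet_Icc).mono (fun y hy => hy.1)

theorem half_le_optMean (n : ℕ) : (n : ℝ≥0∞) * (1 / 2) ≤ optMean n := by
  calc (n : ℝ≥0∞) * (1 / 2) = ∑ _i : Fin n, (1 / 2 : ℝ≥0∞) := by simp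
    _ = ∑ i : Fin n, ∫⁻ x, ENNReal.ofReal (x i) ∂(law n) := by
        apply Finset.sum_congr rfl
        intro i _
        have h := (measurePreserving_eval (fun _ : Fin n => unif) i).lintegral_comp
          (f := ENNReal.ofReal) ENNReal.measurable_ofReal
        rw [lintegral_id_unif] at h
        exact h.symm
    _ = ∫⁻ x, ∑ i : Fin n, ENNReal.ofReal (x i) ∂(law n) := by
        rw [lintegral_finsetSum]
        intro i _
        exact ENNReal.measurable_ofReal.comp (measurable_pi_apply i)
    _ ≤ optMean n := by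
        unfold optMean
        apply lintegral_mono_ae
        filter_upwards [ae_law n] with x hx
        rw [← ENNReal.ofReal_sum_of_nonneg (fun i _ => (hx i).1)]
        calc ENNReal.ofReal (∑ i, x i) ≤ ENNReal.ofReal (opt x) :=
              ENNReal.ofReal_le_ofReal (sum_le_opt x hx)
          _ = _ := ENNReal.ofReal_natCast _

/-! ### Upper bound: matching of complementary cells -/

section comb

variable {n P : ℕ} (cell : Fin n → ℕ)

/-- number of items in cell `c` -/
def num (c : ℕ) : ℕ := (Finset.univ.filter fun i => cell i = c).card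

/-- rank in the own cell -/
def rk (i : Fin n) : ℕ := (Finset.univ.filter fun i' => cell i' = cell i ∧ i' < i).card

def grp (P c : ℕ) : ℕ := if c < P then c else if c < 2 * P then 2 * P - 1 - c else P

def lab (P : ℕ) (i : Fin n) : ℕ × ℕ := (grp P (cell i), rk cell i)

theorem rk_lt (i : Fin n) : rk cell i < num cell (cell i) := by
  unfold rk num
  apply Finset.card_lt_card
  rw [Finset.ssubset_iff_of_subset]
  · exact ⟨i, by simp, by simp⟩
  · intro i' hi'
    simp only [Finset.mem_filter, Finset.mem_univ, true_and] at hi' ⊢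
    exact hi'.1

theorem rk_lt_rk {i i' : Fin n} (hc : cell i = cell i') (h : i < i') : rk cell i < rk cell i' := by
  unfold rk
  apply Finset.card_lt_card
  rw [Finset.ssubset_iff_of_subset]
  · exact ⟨i, by simp [hc, h], by simp⟩
  · intro k hk
    simp only [Finset.mem_filter, Finset.mem_univ, true_and] at hk ⊢
    exact ⟨hk.1.trans hc, hk.2.trans h⟩

theorem lab_inj {i i' : Fin n} (hc : cell i = cell i') (h : lab cell P i = lab cell P i') :
    i = i' := by
  have h2 : rk cell i = rk cell i' := congrArg Prod.snd h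
  rcases lt_trichotomy i i' with h1 | h1 | h1
  · have := rk_lt_rk cell hc h1; omega
  · exact h1
  · have := rk_lt_rk cell hc.symm h1; omega

theorem card_lab (hcell : ∀ i, cell i < 2 * P + 1) :
    (Finset.univ.image (lab cell P)).card ≤
      (∑ g ∈ Finset.range P, max (num cell g) (num cell (2 * P - 1 - g))) + num cell (2 * P) := by
  have hsub : Finset.univ.image (lab cell P) ⊆
      ((Finset.range P).biUnion fun g =>
        (Finset.range (max (num cell g) (num cell (2 * P - 1 - g)))).image (fun r => (g, r))) ∪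
      (Finset.range (num cell (2 * P))).image (fun r => (P, r)) := by
    intro l hl
    obtain ⟨i, -, rfl⟩ := Finset.mem_image.mp hl
    have hr := rk_lt cell i
    have hc := hcell i
    rw [Finset.mem_union]
    by_cases h1 : cell i < P
    · left
      rw [Finset.mem_biUnion]
      refine ⟨cell i, Finset.mem_range.mpr h1, Finset.mem_image.mpr ⟨rk cell i, ?_, ?_⟩⟩
      · rw [Finset.mem_range]; exact lt_max_of_lt_left hr
      · simp [lab, grp, h1]
    · by_cases h2 : cell i < 2 * P
      · left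
        rw [Finset.mem_biUnion]
        refine ⟨2 * P - 1 - cell i, Finset.mem_range.mpr (by omega),
          Finset.mem_image.mpr ⟨rk cell i, ?_, ?_⟩⟩
        · rw [Finset.mem_range]
          have : 2 * P - 1 - (2 * P - 1 - cell i) = cell i := by omega
          rw [this]
          exact lt_max_of_lt_right hr
        · simp [lab, grp, h1, h2]
      · right
        have h3 : cell i = 2 * P := by omega
        refine Finset.mem_image.mpr ⟨rk cell i, ?_, ?_⟩
        · rw [Finset.mem_range, ← h3]; exact hr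
        · simp only [lab, grp, h1, h2, if_false]
  refine (Finset.card_le_card hsub).trans ((Finset.card_union_le _ _).trans ?_)
  gcongr
  · refine Finset.card_biUnion_le.trans ?_
    apply Finset.sum_le_sum
    intro g _
    exact Finset.card_image_le.trans (by simp)
  · exact Finset.card_image_le.trans (by simp)

theorem sum_fiber {x : Fin n → ℝ} (hcell : ∀ i, cell i < 2 * P + 1)
    (hx : ∀ i, x i * (2 * P + 1) ≤ cell i + 1) (l : ℕ × ℕ) :
    ∑ i with lab cell P i = l, x i ≤ 1 := by
  have hK : (0 : ℝ) < 2 * P + 1 := by positivity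
  have h1 : (∑ i with lab cell P i = l, x i) * (2 * P + 1) ≤
      ∑ i with lab cell P i = l, ((cell i : ℝ) + 1) := by
    rw [Finset.sum_mul]
    exact Finset.sum_le_sum (fun i _ => hx i)
  have hinj : Set.InjOn cell (Finset.univ.filter fun i => lab cell P i = l) := by
    intro i hi i' hi' hc
    simp only [Finset.coe_filter, Finset.mem_univ, true_and, Set.mem_ofPred_eq] at hi hi'
    exact lab_inj cell hc (hi.trans hi'.symm)
  have h2 : ∑ i with lab cell P i = l, ((cell i : ℝ) + 1) =
      ∑ c ∈ (Finset.univ.filter fun i => lab cell P i = l).image cell, ((c : ℝ) + 1) := by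
    rw [Finset.sum_image hinj]
  have h3 : ∑ c ∈ (Finset.univ.filter fun i => lab cell P i = l).image cell, ((c : ℝ) + 1) ≤
      2 * P + 1 := by
    by_cases hl : l.1 < P
    · have hs : (Finset.univ.filter fun i => lab cell P i = l).image cell ⊆
          {l.1, 2 * P - 1 - l.1} := by
        intro c hc
        obtain ⟨i, hi, rfl⟩ := Finset.mem_image.mp hc
        simp only [Finset.mem_filter, Finset.mem_univ, true_and] at hi
        have hg : grp P (cell i) = l.1 := congrArg Prod.fst hi
        have := hcell i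
        rw [Finset.mem_insert, Finset.mem_singleton]
        unfold grp at hg
        split_ifs at hg <;> omega
      refine (Finset.sum_le_sum_of_subset_of_nonneg hs (fun c _ _ => by positivity)).trans ?_
      rw [Finset.sum_pair (by omega)]
      have : ((2 * P - 1 - l.1 : ℕ) : ℝ) = 2 * P - 1 - l.1 := by
        rw [Nat.cast_sub (by omega), Nat.cast_sub (by omega)]
        push_cast; ring
      rw [this]
      linarith
    · have hs : (Finset.univ.filter fun i => lab cell P i = l).image cell ⊆ {2 * P} := by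
        intro c hc
        obtain ⟨i, hi, rfl⟩ := Finset.mem_image.mp hc
        simp only [Finset.mem_filter, Finset.mem_univ, true_and] at hi
        have hg : grp P (cell i) = l.1 := congrArg Prod.fst hi
        have := hcell i
        rw [Finset.mem_singleton]
        unfold grp at hg
        split_ifs at hg <;> omega
      refine (Finset.sum_le_sum_of_subset_of_nonneg hs (fun c _ _ => by positivity)).trans ?_
      rw [Finset.sum_singleton]
      push_cast
      linarith
  have h4 : (∑ i with lab cell P i = l, x i) * (2 * P + 1) ≤ 1 * (2 * P + 1) := by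
    rw [one_mul]
    exact h1.trans (h2 ▸ h3)
  exact le_of_mul_le_mul_right h4 hK

theorem opt_le_card {x : Fin n → ℝ} {κ : Type*} [DecidableEq κ] (lb : Fin n → κ)
    (h : ∀ l, ∑ i with lb i = l, x i ≤ 1) : opt x ≤ (Finset.univ.image lb).card := by
  apply Nat.sInf_le
  set e := (Finset.univ.image lb).equivFin with he
  refine ⟨fun i => e ⟨lb i, Finset.mem_image_of_mem _ (Finset.mem_univ i)⟩, fun j => ?_⟩
  have h1 := h (e.symm j).1
  refine le_trans (le_of_eq ?_) h1
  apply Finset.sum_congr _ (fun _ _ => rfl)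
  ext i
  simp only [Finset.mem_filter, Finset.mem_univ, true_and]
  constructor
  · intro hi
    rw [← hi, Equiv.symm_apply_apply]
  · intro hi
    rw [← Equiv.eq_symm_apply]
    exact Subtype.ext hi

theorem sum_num (hcell : ∀ i, cell i < 2 * P + 1) :
    (∑ g ∈ Finset.range P, (num cell g + num cell (2 * P - 1 - g))) + num cell (2 * P) = n := by
  have h1 : ∑ c ∈ Finset.range (2 * P + 1), num cell c = n := by
    unfold num
    rw [← Finset.card_eq_sum_card_fiberwise (f := cell) (s := Finset.univ)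
      (t := Finset.range (2 * P + 1)) (fun i _ => by simpa using hcell i)]
    simp
  refine Eq.trans ?_ h1
  rw [Finset.sum_range_succ, Finset.sum_add_distrib]
  congr 1
  have e : 2 * P = P + P := by ring
  rw [e, Finset.sum_range_add]
  congr 1
  rw [← Finset.sum_range_reflect]
  apply Finset.sum_congr rfl
  intro g hg
  have := Finset.mem_range.mp hg
  congr 1
  omega

end comb

/-- sign of a cell for the pair `g` -/
def xi (P g c : ℕ) : ℝ := if c = g then 1 else if c = 2 * P - 1 - g then -1 else 0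

theorem opt_le {n P : ℕ} {x : Fin n → ℝ} (hx : ∀ i, Good (2 * P + 1) (x i)) :
    (opt x : ℝ) ≤ n / 2 + (∑ i, if ⌊((2 * P + 1 : ℕ) : ℝ) * x i⌋₊ = 2 * P then (1 : ℝ) else 0) / 2 +
      ∑ g ∈ Finset.range P, |∑ i, xi P g ⌊((2 * P + 1 : ℕ) : ℝ) * x i⌋₊| / 2 := by
  set cell : Fin n → ℕ := fun i => ⌊((2 * P + 1 : ℕ) : ℝ) * x i⌋₊ with hcelldef
  have hcell : ∀ i, cell i < 2 * P + 1 := by
    intro i
    obtain ⟨j, hj, hy⟩ := hx i
    have := (cell_facts (by omega) hj hy).2.2.2
    simp only [hcelldef]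
    rw [this]; exact hj
  have hx2 : ∀ i, x i * (2 * P + 1) ≤ cell i + 1 := by
    intro i
    obtain ⟨j, hj, hy⟩ := hx i
    have h := cell_facts (by omega) hj hy
    simp only [hcelldef]
    rw [h.2.2.2]
    have := h.2.1
    push_cast at this
    linarith
  have h1 : opt x ≤ (∑ g ∈ Finset.range P, max (num cell g) (num cell (2 * P - 1 - g))) +
      num cell (2 * P) :=
    (opt_le_card (lab cell P) (sum_fiber cell hcell hx2)).trans (card_lab cell hcell)
  have h2 := sum_num cell hcell
  have hnum : ∀ c, (num cell c : ℝ) = ∑ i, if cell i = c then (1 : ℝ) else 0 := by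
    intro c
    unfold num
    rw [Finset.card_filter]
    push_cast
    rfl
  have hxi : ∀ g < P, ∑ i, xi P g (cell i) = (num cell g : ℝ) - num cell (2 * P - 1 - g) := by
    intro g hg
    rw [hnum, hnum, ← Finset.sum_sub_distrib]
    apply Finset.sum_congr rfl
    intro i _
    unfold xi
    split_ifs with a1 a2 a2
    · omega
    · ring
    · ring
    · ring
  have h3 : (opt x : ℝ) ≤ (∑ g ∈ Finset.range P, max (num cell g : ℝ) (num cell (2 * P - 1 - g))) +
      num cell (2 * P) := by
    have : ((opt x : ℕ) : ℝ) ≤ (((∑ g ∈ Finset.range P,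
      max (num cell g) (num cell (2 * P - 1 - g))) + num cell (2 * P) : ℕ) : ℝ) := by
        exact_mod_cast h1
    push_cast at this
    exact this
  have h4 : ((∑ g ∈ Finset.range P, ((num cell g : ℝ) + num cell (2 * P - 1 - g))) +
      num cell (2 * P)) = n := by
    have : (((∑ g ∈ Finset.range P, (num cell g + num cell (2 * P - 1 - g))) +
      num cell (2 * P) : ℕ) : ℝ) = n := by rw [h2]
    push_cast at this
    exact this
  have h5 : ∑ g ∈ Finset.range P, max (num cell g : ℝ) (num cell (2 * P - 1 - g)) =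
      (∑ g ∈ Finset.range P, ((num cell g : ℝ) + num cell (2 * P - 1 - g))) / 2 +
      ∑ g ∈ Finset.range P, |∑ i, xi P g (cell i)| / 2 := by
    rw [Finset.sum_div, ← Finset.sum_add_distrib]
    apply Finset.sum_congr rfl
    intro g hg
    rw [hxi g (Finset.mem_range.mp hg)]
    rcases le_total (num cell g : ℝ) (num cell (2 * P - 1 - g)) with h | h
    · rw [max_eq_right h, abs_of_nonpos (by linarith)]; ring
    · rw [max_eq_left h, abs_of_nonneg (by linarith)]; ring
  have h6 := hnum (2 * P)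
  rw [h5] at h3
  rw [← h6]
  have e : (∑ g ∈ Finset.range P, ((num cell g : ℝ) + num cell (2 * P - 1 - g))) =
    n - num cell (2 * P) := by linarith
  rw [e] at h3
  linarith

theorem sum_xi {P g : ℕ} (hg : g < P) : ∑ c ∈ Finset.range (2 * P + 1), xi P g c = 0 := by
  have h : ∀ c, xi P g c = (if c = g then (1 : ℝ) else 0) - (if c = 2 * P - 1 - g then 1 else 0) := by
    intro c
    unfold xi
    split_ifs with a b b
    · omega
    · ring
    · ring
    · ring
  rw [Finset.sum_congr rfl (fun c _ => h c), Finset.sum_sub_distrib]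
  rw [Finset.sum_ite_eq', Finset.sum_ite_eq']
  rw [if_pos (Finset.mem_range.mpr (by omega)), if_pos (Finset.mem_range.mpr (by omega))]
  ring

theorem sum_xi_sq {P g : ℕ} (hg : g < P) : ∑ c ∈ Finset.range (2 * P + 1), xi P g c ^ 2 = 2 := by
  have h : ∀ c, xi P g c ^ 2 =
      (if c = g then (1 : ℝ) else 0) + (if c = 2 * P - 1 - g then 1 else 0) := by
    intro c
    unfold xi
    split_ifs with a b b
    · omega
    · ring
    · ring
    · ring
  rw [Finset.sum_congr rfl (fun c _ => h c), Finset.sum_add_distrib]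
  rw [Finset.sum_ite_eq', Finset.sum_ite_eq']
  rw [if_pos (Finset.mem_range.mpr (by omega)), if_pos (Finset.mem_range.mpr (by omega))]
  ring

/-- the bound for `OPT` used in the integration -/
noncomputable def bnd (P : ℕ) (L : ℝ) {n : ℕ} (x : Fin n → ℝ) : ℝ :=
  n / 2 + (∑ i, if ⌊((2 * P + 1 : ℕ) : ℝ) * x i⌋₊ = 2 * P then (1 : ℝ) else 0) / 2 +
      ∑ g ∈ Finset.range P,
        ((∑ i, xi P g ⌊((2 * P + 1 : ℕ) : ℝ) * x i⌋₊) ^ 2 / (4 * L) + L / 4)

theorem opt_le_bnd {n P : ℕ} {L : ℝ} (hL : 0 < L) {x : Fin n → ℝ}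
    (hx : ∀ i, Good (2 * P + 1) (x i)) : (opt x : ℝ) ≤ bnd P L x := by
  refine (opt_le hx).trans ?_
  unfold bnd
  gcongr with g hg
  set d := ∑ i, xi P g ⌊((2 * P + 1 : ℕ) : ℝ) * x i⌋₊ with hd
  have h1 : 0 ≤ (|d| - L) ^ 2 := sq_nonneg _
  have h2 : |d| ^ 2 = d ^ 2 := sq_abs d
  have h3 : d ^ 2 / (4 * L) + L / 4 - |d| / 2 = (|d| - L) ^ 2 / (4 * L) := by
    field_simp
    rw [← h2]; ring
  have h4 : 0 ≤ (|d| - L) ^ 2 / (4 * L) := by positivity
  linarith

theorem measurable_bnd (P : ℕ) (L : ℝ) (n : ℕ) :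
    Measurable fun x : Fin n → ℝ => bnd P L x := by
  have hfl : ∀ i : Fin n, Measurable fun x : Fin n → ℝ => ⌊((2 * P + 1 : ℕ) : ℝ) * x i⌋₊ := by
    intro i
    exact Nat.measurable_floor.comp (measurable_const.mul (measurable_pi_apply i))
  have hf : ∀ (φ : ℕ → ℝ), Measurable fun x : Fin n → ℝ =>
      ∑ i, φ ⌊((2 * P + 1 : ℕ) : ℝ) * x i⌋₊ := by
    intro φ
    apply Finset.measurable_sum
    intro i _
    exact (measurable_from_top (f := φ)).comp (hfl i)
  unfold bnd
  apply Measurable.add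
  · apply Measurable.add measurable_const
    exact (hf (fun c => if c = 2 * P then 1 else 0)).div_const _
  · apply Finset.measurable_sum
    intro g _
    apply Measurable.add _ measurable_const
    exact ((hf (fun c => xi P g c)).pow_const 2).div_const _

/-- growth rate -/
noncomputable def kap (P : ℕ) (L : ℝ) : ℝ :=
  1 / 2 + 1 / (2 * (2 * P + 1)) + P * (2 / (2 * P + 1)) / (4 * L)

theorem bnd_snoc {n P : ℕ} {L : ℝ} {x : Fin n → ℝ} {j : ℕ}
    (hj : j < 2 * P + 1) {y : ℝ}
    (hy : y ∈ Set.Ioo ((j : ℝ) / (2 * P + 1 : ℕ)) (((j : ℝ) + 1) / (2 * P + 1 : ℕ))) :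
    bnd P L (Fin.snoc (α := fun _ => ℝ) x y) = bnd P L x + 1 / 2 +
      (if j = 2 * P then (1 : ℝ) else 0) / 2 + ∑ g ∈ Finset.range P,
        (2 * (∑ i, xi P g ⌊((2 * P + 1 : ℕ) : ℝ) * x i⌋₊) * xi P g j + xi P g j ^ 2) / (4 * L) := by
  have hc := (cell_facts (by omega) hj hy).2.2.2
  have hs : ∀ φ : ℕ → ℝ, ∑ i, φ ⌊((2 * P + 1 : ℕ) : ℝ) *
      (Fin.snoc (α := fun _ => ℝ) x y : Fin (n + 1) → ℝ) i⌋₊ =
      ∑ i, φ ⌊((2 * P + 1 : ℕ) : ℝ) * x i⌋₊ + φ j := by
    intro φ
    rw [Fin.sum_univ_castSucc]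
    simp only [Fin.snoc_castSucc, Fin.snoc_last]
    rw [hc]
  unfold bnd
  rw [hs (fun c => if c = 2 * P then (1 : ℝ) else 0)]
  have h2 : ∀ g, ∑ i, xi P g ⌊((2 * P + 1 : ℕ) : ℝ) *
      (Fin.snoc (α := fun _ => ℝ) x y : Fin (n + 1) → ℝ) i⌋₊ =
      ∑ i, xi P g ⌊((2 * P + 1 : ℕ) : ℝ) * x i⌋₊ + xi P g j := fun g => hs (xi P g)
  simp only [h2]
  have h3 : ∑ g ∈ Finset.range P,
      ((∑ i, xi P g ⌊((2 * P + 1 : ℕ) : ℝ) * x i⌋₊ + xi P g j) ^ 2 / (4 * L) + L / 4) =
      ∑ g ∈ Finset.range P, ((∑ i, xi P g ⌊((2 * P + 1 : ℕ) : ℝ) * x i⌋₊) ^ 2 / (4 * L) + L / 4) +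
      ∑ g ∈ Finset.range P,
        (2 * (∑ i, xi P g ⌊((2 * P + 1 : ℕ) : ℝ) * x i⌋₊) * xi P g j + xi P g j ^ 2) / (4 * L) := by
    rw [← Finset.sum_add_distrib]
    apply Finset.sum_congr rfl
    intro g _
    ring
  rw [h3]
  push_cast
  ring

theorem bnd_nonneg {n P : ℕ} {L : ℝ} (hL : 0 < L) (x : Fin n → ℝ) : 0 ≤ bnd P L x := by
  unfold bnd
  have h1 : 0 ≤ ∑ i, (if ⌊((2 * P + 1 : ℕ) : ℝ) * x i⌋₊ = 2 * P then (1 : ℝ) else 0) :=
    Finset.sum_nonneg (fun i _ => by split <;> norm_num)
  have h2 : 0 ≤ ∑ g ∈ Finset.range P,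
        ((∑ i, xi P g ⌊((2 * P + 1 : ℕ) : ℝ) * x i⌋₊) ^ 2 / (4 * L) + L / 4) :=
    Finset.sum_nonneg (fun g _ => by positivity)
  positivity

theorem lintegral_bnd {P : ℕ} {L : ℝ} (hL : 0 < L) : ∀ n : ℕ,
    ∫⁻ x, ENNReal.ofReal (bnd P L x) ∂(law n) ≤ ENNReal.ofReal (P * (L / 4) + n * kap P L)
  | 0 => by
      have h0 : ∀ x : Fin 0 → ℝ, ENNReal.ofReal (bnd P L x) = ENNReal.ofReal (P * (L / 4)) := by
        intro x; simp [bnd]
      rw [lintegral_congr h0, lintegral_const]
      simp
  | n + 1 => by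
      have hK : (0 : ℝ) < 2 * P + 1 := by positivity
      have hkap : 0 ≤ kap P L := by unfold kap; positivity
      rw [lintegral_law_succ (F := fun x => ENNReal.ofReal (bnd P L x))
        (ENNReal.measurable_ofReal.comp (measurable_bnd P L (n + 1)))]
      have hstep : ∀ x : Fin n → ℝ, ∫⁻ y, ENNReal.ofReal (bnd P L (Fin.snoc x y)) ∂unif ≤
          ENNReal.ofReal (bnd P L x) + ENNReal.ofReal (kap P L) := by
        intro x
        set g0 : ℕ → ℝ := fun j => bnd P L x + 1 / 2 +
          (if j = 2 * P then (1 : ℝ) else 0) / 2 + ∑ g ∈ Finset.range P,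
          (2 * (∑ i, xi P g ⌊((2 * P + 1 : ℕ) : ℝ) * x i⌋₊) * xi P g j + xi P g j ^ 2) / (4 * L)
          with hg0
        have hcell : ∀ j < 2 * P + 1, ∀ y ∈ Set.Ioo ((j : ℝ) / (2 * P + 1 : ℕ))
            (((j : ℝ) + 1) / (2 * P + 1 : ℕ)), bnd P L (Fin.snoc (α := fun _ => ℝ) x y) = g0 j :=
          fun j hj y hy => bnd_snoc hj hy
        have hpos : ∀ j ∈ Finset.range (2 * P + 1), 0 ≤ g0 j := by
          intro j hj
          have hj' := Finset.mem_range.mp hj
          have hKn : (0 : ℝ) < ((2 * P + 1 : ℕ) : ℝ) := by exact_mod_cast Nat.succ_pos _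
          have hne : (j : ℝ) / (2 * P + 1 : ℕ) < ((j : ℝ) + 1) / (2 * P + 1 : ℕ) := by
            gcongr; linarith
          obtain ⟨y, hy1, hy2⟩ := exists_between hne
          rw [← hcell j hj' y ⟨hy1, hy2⟩]
          exact bnd_nonneg hL _
        refine (lintegral_unif_le (m := 2 * P + 1) (by omega)
          (g := fun j => ENNReal.ofReal (g0 j)) ?_).trans ?_
        · intro j hj y hy
          rw [hcell j hj y hy]
        · rw [← ENNReal.ofReal_sum_of_nonneg hpos, ← ENNReal.ofReal_add (bnd_nonneg hL x) hkap]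
          have hsum : ∑ j ∈ Finset.range (2 * P + 1), g0 j =
              (2 * P + 1) * (bnd P L x + kap P L) := by
            simp only [hg0]
            rw [Finset.sum_add_distrib, Finset.sum_add_distrib, Finset.sum_add_distrib]
            have s1 : ∑ _j ∈ Finset.range (2 * P + 1), bnd P L x = (2 * P + 1) * bnd P L x := by
              simp
            have s2 : ∑ _j ∈ Finset.range (2 * P + 1), (1 / 2 : ℝ) = (2 * P + 1) * (1 / 2) := by
              simp
            have s3 : ∑ j ∈ Finset.range (2 * P + 1), (if j = 2 * P then (1 : ℝ) else 0) / 2 =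
                1 / 2 := by
              rw [← Finset.sum_div, Finset.sum_ite_eq',
                if_pos (Finset.mem_range.mpr (by omega))]
            have s4 : ∑ j ∈ Finset.range (2 * P + 1), ∑ g ∈ Finset.range P,
                (2 * (∑ i, xi P g ⌊((2 * P + 1 : ℕ) : ℝ) * x i⌋₊) * xi P g j + xi P g j ^ 2) /
                (4 * L) = P * 2 / (4 * L) := by
              rw [Finset.sum_comm]
              have : ∀ g ∈ Finset.range P, ∑ j ∈ Finset.range (2 * P + 1),
                  (2 * (∑ i, xi P g ⌊((2 * P + 1 : ℕ) : ℝ) * x i⌋₊) * xi P g j + xi P g j ^ 2) /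
                  (4 * L) = 2 / (4 * L) := by
                intro g hg
                have hg' := Finset.mem_range.mp hg
                rw [← Finset.sum_div, Finset.sum_add_distrib, ← Finset.mul_sum, sum_xi hg',
                  sum_xi_sq hg']
                ring
              rw [Finset.sum_congr rfl this]
              simp
              ring
            rw [s1, s2, s3, s4]
            unfold kap
            field_simp
            ring
          rw [hsum]
          have hKe : ((2 * P + 1 : ℕ) : ℝ≥0∞) = ENNReal.ofReal (2 * P + 1) := by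
            rw [← ENNReal.ofReal_natCast]; push_cast; rfl
          rw [hKe, ← ENNReal.ofReal_div_of_pos hK]
          apply ENNReal.ofReal_le_ofReal
          rw [mul_div_cancel_left₀ _ hK.ne']
      calc ∫⁻ x, ∫⁻ y, ENNReal.ofReal (bnd P L (Fin.snoc x y)) ∂unif ∂(law n)
          ≤ ∫⁻ x, (ENNReal.ofReal (bnd P L x) + ENNReal.ofReal (kap P L)) ∂(law n) :=
            lintegral_mono hstep
        _ = ∫⁻ x, ENNReal.ofReal (bnd P L x) ∂(law n) + ENNReal.ofReal (kap P L) := by
            rw [lintegral_add_right _ measurable_const, lintegral_const]; simp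
        _ ≤ ENNReal.ofReal (P * (L / 4) + n * kap P L) + ENNReal.ofReal (kap P L) := by
            gcongr
            exact lintegral_bnd hL n
        _ = ENNReal.ofReal (P * (L / 4) + (n + 1 : ℕ) * kap P L) := by
            rw [← ENNReal.ofReal_add (by positivity) hkap]
            congr 1
            push_cast
            ring

theorem ae_good {m : ℕ} (hm : 0 < m) : ∀ᵐ y ∂unif, Good m y := by
  have hm' : (0 : ℝ) < m := by exact_mod_cast hm
  have hcount : ((Finset.range (m + 1)).image fun j : ℕ => (j : ℝ) / m : Set ℝ).Countable :=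
    Finset.countable_toSet _
  have h1 : ∀ᵐ y ∂unif, y ∉ ((Finset.range (m + 1)).image fun j : ℕ => (j : ℝ) / m : Finset ℝ) := by
    have : ∀ᵐ y ∂(volume : Measure ℝ),
        y ∉ ((Finset.range (m + 1)).image fun j : ℕ => (j : ℝ) / m : Finset ℝ) := by
      rw [ae_iff]
      simp only [not_not]
      exact (Finset.countable_toSet
        ((Finset.range (m + 1)).image fun j : ℕ => (j : ℝ) / m)).measure_zero _
    exact ae_restrict_of_ae this
  have h2 : ∀ᵐ y ∂unif, y ∈ Set.Icc (0 : ℝ) 1 := ae_restrict_mem measurableSet_Icc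
  filter_upwards [h1, h2] with y hy1 hy2
  have hfl := Nat.floor_le (a := (m : ℝ) * y) (by have := hy2.1; positivity)
  have hfl2 := Nat.lt_floor_add_one ((m : ℝ) * y)
  set j := ⌊(m : ℝ) * y⌋₊ with hj
  have hjm : (j : ℝ) ≤ m := by nlinarith [hy2.2]
  have hjm' : j ≤ m := by exact_mod_cast hjm
  have hne : (m : ℝ) * y ≠ j := by
    intro h
    apply hy1
    rw [Finset.mem_image]
    exact ⟨j, Finset.mem_range.mpr (by omega), by rw [← h]; field_simp⟩
  have hlt : (j : ℝ) < m * y := lt_of_le_of_ne hfl (Ne.symm hne)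
  have hjm2 : j < m := by
    have : (j : ℝ) < m := by nlinarith [hy2.2]
    exact_mod_cast this
  refine ⟨j, hjm2, ?_, ?_⟩
  · rw [div_lt_iff₀ hm']; linarith
  · rw [lt_div_iff₀ hm']; linarith

theorem optMean_le {P : ℕ} {L : ℝ} (hL : 0 < L) (n : ℕ) :
    optMean n ≤ ENNReal.ofReal (P * (L / 4) + n * kap P L) := by
  refine le_trans ?_ (lintegral_bnd hL n)
  unfold optMean
  apply lintegral_mono_ae
  have hg : ∀ᵐ x ∂(law n), ∀ i, Good (2 * P + 1) (x i) := by
    rw [ae_all_iff]
    intro i
    exact (Measure.tendsto_eval_ae_ae (μ := fun _ : Fin n => unif) (i := i)).eventually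
      (ae_good (by omega))
  filter_upwards [hg] with x hx
  rw [← ENNReal.ofReal_natCast]
  exact ENNReal.ofReal_le_ofReal (opt_le_bnd hL hx)

/-- `E[OPT(L_n)] ≤ (1/2 + ε) n + C`. -/
theorem optMean_le' {ε : ℝ} (hε : 0 < ε) : ∃ C : ℝ, 0 ≤ C ∧ ∀ n : ℕ,
    optMean n ≤ ENNReal.ofReal (n * (1 / 2 + ε) + C) := by
  obtain ⟨P, hP⟩ := exists_nat_gt (1 / ε)
  have hP0 : (0 : ℝ) < P := lt_trans (by positivity) hP
  refine ⟨P * (1 / ε / 4), by positivity, fun n => ?_⟩
  refine (optMean_le (P := P) (L := 1 / ε) (by positivity) n).trans ?_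
  apply ENNReal.ofReal_le_ofReal
  have hk : kap P (1 / ε) ≤ 1 / 2 + ε := by
    unfold kap
    have h1 : 1 / (2 * (2 * (P : ℝ) + 1)) ≤ ε / 4 := by
      rw [div_le_iff₀ (by positivity)]
      have h3 : 1 < P * ε := by rwa [div_lt_iff₀ hε] at hP
      nlinarith
    have h2 : (P : ℝ) * (2 / (2 * P + 1)) / (4 * (1 / ε)) ≤ ε / 4 := by
      have h3 : (P : ℝ) * (2 / (2 * P + 1)) ≤ 1 := by
        rw [mul_div_assoc', div_le_one (by positivity)]; linarith
      calc (P : ℝ) * (2 / (2 * P + 1)) / (4 * (1 / ε)) ≤ 1 / (4 * (1 / ε)) := by gcongr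
        _ = ε / 4 := by field_simp
    linarith
  have : (n : ℝ) * kap P (1 / ε) ≤ n * (1 / 2 + ε) := by gcongr
  linarith

end Pool.Agent.F1D
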