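import Pool.Agent.Lib.MP_f1d828_lc.Upper2
import Pool.Agent.Lib.MP_f1d828_lc.Opt

/-! From tables of potentials to bounds for the asymptotic expected ratio. -/

open MeasureTheory Filter
open scoped ENNReal

namespace Pool.Agent.F1D

theorem mean_lower {m D MC : ℕ} {H : ℕ → ℕ → ℕ} (hm : 0 < m) (cert : CertL m D MC H)
    (A : OnlineAlg 2) (n : ℕ) :
    (n : ℝ≥0∞) * ((MC : ℝ≥0∞) / m) ≤ D * A.mean n + H (m - 1) (m - 1) := by
  have hmeas : Measurable fun x : Fin n → ℝ =>
      ((D * A.count x + H (m - 1) (m - 1) : ℕ) : ℝ≥0∞) := by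
    have h1 : Measurable fun x : Fin n → ℝ => D * A.count x + H (m - 1) (m - 1) :=
      (measurable_const.mul (measurable_count A n)).add measurable_const
    exact (measurable_from_top (f := fun k : ℕ => (k : ℝ≥0∞))).comp h1
  have h := lower_aux A hm cert n _ 0 hmeas (fun x hx α β hrep => by
    obtain ⟨p, q, -, -, hα, hβ⟩ := hrep
    have hαm : α < m := by
      rw [hα]; split
      · exact vlev_lt A hm hx p
      · omega
    have hβm : β < m := by
      rw [hβ]; split
      · exact vlev_lt A hm hx q
      · omega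
    have h1 : H α β ≤ H (m - 1) (m - 1) := by
      calc H α β ≤ H α (m - 1) := cert.last α hαm β hβm
        _ = H (m - 1) α := cert.symm α hαm _ (by omega)
        _ ≤ H (m - 1) (m - 1) := cert.last _ (by omega) α hαm
    rw [add_zero]
    exact_mod_cast Nat.add_le_add_left h1 _)
  rw [zero_add] at h
  refine h.trans (le_of_eq ?_)
  have e : ∀ x : Fin n → ℝ, ((D * A.count x + H (m - 1) (m - 1) : ℕ) : ℝ≥0∞) =
      D * (A.count x : ℝ≥0∞) + H (m - 1) (m - 1) := by
    intro x; push_cast; rfl
  rw [lintegral_congr e, lintegral_add_right _ measurable_const, lintegral_const,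
    lintegral_const_mul]
  · simp [OnlineAlg.mean]
  · exact (measurable_from_top (f := fun k : ℕ => (k : ℝ≥0∞))).comp (measurable_count A n)

theorem mean_upper {m D MC : ℕ} {H : ℕ → ℕ → ℕ} (hm : 0 < m) (cert : CertU m D MC H) (n : ℕ) :
    D * (algF m D H hm).mean n ≤ H (m - 1) (m - 1) + n * ((MC : ℝ≥0∞) / m) := by
  refine le_trans ?_ (upper_aux hm cert n)
  unfold OnlineAlg.mean
  rw [← lintegral_const_mul]
  · apply lintegral_mono
    intro x
    unfold potF
    push_cast
    exact le_self_add
  · exact (measurable_from_top (f := fun k : ℕ => (k : ℝ≥0∞))).comp (measurable_count _ n)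

theorem mean_ne_top {k : ℕ} (A : OnlineAlg k) (n : ℕ) : A.mean n ≠ ⊤ := by
  have h : A.mean n ≤ ∫⁻ _x, (n : ℝ≥0∞) ∂(law n) := by
    apply lintegral_mono
    intro x
    have : A.count x ≤ n := by
      unfold OnlineAlg.count
      exact Finset.card_image_le.trans (by simp)
    show (A.count x : ℝ≥0∞) ≤ (n : ℝ≥0∞)
    exact_mod_cast this
  rw [lintegral_const] at h
  simp only [measure_univ, mul_one] at h
  exact ne_top_of_le_ne_top (ENNReal.natCast_ne_top n) h

theorem optMean_ne_top (n : ℕ) : optMean n ≠ ⊤ :=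
  ne_top_of_le_ne_top ENNReal.ofReal_ne_top (optMean_le (P := 1) (L := 1) one_pos n)

/-- Lower bound: if `r/2 < MC/(m D)` then every algorithm has ratio at least `r`. -/
theorem ratio_lower {m D MC : ℕ} {H : ℕ → ℕ → ℕ} (hm : 0 < m) (hD : 0 < D)
    (cert : CertL m D MC H) {r : ℝ} (hr : 0 < r) (hrc : r / 2 < MC / (m * D)) (A : OnlineAlg 2) :
    ENNReal.ofReal r ≤ A.ratio := by
  have hm' : (0 : ℝ) < m := by exact_mod_cast hm
  have hD' : (0 : ℝ) < D := by exact_mod_cast hD
  set c : ℝ := MC / (m * D) with hc
  set ε : ℝ := (c - r / 2) / (2 * r) with hε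
  have hεpos : 0 < ε := by
    rw [hε]; exact div_pos (by linarith) (by linarith)
  obtain ⟨C, hC, hopt⟩ := optMean_le' hεpos
  have hgap : 0 < c - r * (1 / 2 + ε) := by
    have : r * ε = (c - r / 2) / 2 := by rw [hε]; field_simp
    nlinarith
  set M : ℝ := H (m - 1) (m - 1) / D with hM
  have hev : ∀ᶠ n : ℕ in atTop, ENNReal.ofReal r ≤ A.mean n / optMean n := by
    obtain ⟨N, hN⟩ := exists_nat_ge ((M + r * C) / (c - r * (1 / 2 + ε)))
    filter_upwards [eventually_ge_atTop (max N 1)] with n hn
    have hn1 : 1 ≤ n := le_trans (le_max_right _ _) hn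
    have hnN : (N : ℝ) ≤ n := by exact_mod_cast le_trans (le_max_left _ _) hn
    have hn0 : (0 : ℝ) ≤ n := by positivity
    have hopt0 : optMean n ≠ 0 := by
      have h1 := half_le_optMean n
      intro h0
      rw [h0] at h1
      have h2 : (n : ℝ≥0∞) * (1 / 2) = 0 := le_antisymm h1 (by positivity)
      rw [mul_eq_zero] at h2
      rcases h2 with h2 | h2
      · have : n = 0 := by exact_mod_cast h2
        omega
      · simp at h2
    rw [ENNReal.le_div_iff_mul_le (Or.inl hopt0) (Or.inl (optMean_ne_top n))]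
    have hA : ENNReal.ofReal (n * c - M) ≤ A.mean n := by
      have h1 := mean_lower hm cert A n
      have h2 : ENNReal.ofReal (D * (n * c - M)) ≤ D * A.mean n := by
        have e1 : ENNReal.ofReal (D * (n * c - M)) + H (m - 1) (m - 1) ≤
            D * A.mean n + H (m - 1) (m - 1) := by
          rcases le_total (D * (n * c - M)) 0 with hneg | hpos
          · rw [ENNReal.ofReal_of_nonpos hneg, zero_add]
            exact le_add_self
          · refine le_trans (le_of_eq ?_) h1
            rw [← ENNReal.ofReal_natCast (H (m - 1) (m - 1)),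
              ← ENNReal.ofReal_add hpos (by positivity), ← ENNReal.ofReal_natCast n,
              ← ENNReal.ofReal_natCast MC, ← ENNReal.ofReal_natCast m,
              ← ENNReal.ofReal_div_of_pos hm', ← ENNReal.ofReal_mul hn0]
            congr 1
            rw [hM, hc]
            field_simp
            ring
        exact (ENNReal.add_le_add_iff_right (ENNReal.natCast_ne_top _)).mp e1
      rw [ENNReal.ofReal_mul hD'.le, ENNReal.ofReal_natCast] at h2
      exact (ENNReal.mul_le_mul_iff_right (by exact_mod_cast hD.ne')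
        (ENNReal.natCast_ne_top D)).mp h2
    refine le_trans ?_ hA
    calc ENNReal.ofReal r * optMean n
        ≤ ENNReal.ofReal r * ENNReal.ofReal (n * (1 / 2 + ε) + C) := by
          gcongr
          exact hopt n
      _ = ENNReal.ofReal (r * (n * (1 / 2 + ε) + C)) := by rw [ENNReal.ofReal_mul hr.le]
      _ ≤ ENNReal.ofReal (n * c - M) := by
          apply ENNReal.ofReal_le_ofReal
          have h1 : (M + r * C) / (c - r * (1 / 2 + ε)) ≤ n := hN.trans hnN
          rw [div_le_iff₀ hgap] at h1
          nlinarith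
  unfold OnlineAlg.ratio
  exact le_limsup_of_le (by isBoundedDefault) (fun b hb => by
    obtain ⟨n, h1, h2⟩ := (hb.and hev).exists
    exact h2.trans h1)

/-- Upper bound: the algorithm given by a table has ratio at most `r` if `MC/(m D) < r/2`. -/
theorem ratio_upper {m D MC : ℕ} {H : ℕ → ℕ → ℕ} (hm : 0 < m) (hD : 0 < D)
    (cert : CertU m D MC H) {r : ℝ} (hr : 0 < r) (hrc : MC / (m * D) < r / 2) :
    (algF m D H hm).ratio ≤ ENNReal.ofReal r := by
  have hm' : (0 : ℝ) < m := by exact_mod_cast hm
  have hD' : (0 : ℝ) < D := by exact_mod_cast hD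
  set c : ℝ := MC / (m * D) with hc
  set M : ℝ := H (m - 1) (m - 1) / D with hM
  have hev : ∀ᶠ n : ℕ in atTop, (algF m D H hm).mean n / optMean n ≤ ENNReal.ofReal r := by
    obtain ⟨N, hN⟩ := exists_nat_ge (M / (r / 2 - c))
    filter_upwards [eventually_ge_atTop N] with n hn
    have hnN : (N : ℝ) ≤ n := by exact_mod_cast hn
    have hn0 : (0 : ℝ) ≤ n := by positivity
    apply ENNReal.div_le_of_le_mul
    have h1 := mean_upper hm cert n
    have h2 : (algF m D H hm).mean n ≤ ENNReal.ofReal (n * c + M) := by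
      have e1 : D * (algF m D H hm).mean n ≤ D * ENNReal.ofReal (n * c + M) := by
        refine h1.trans (le_of_eq ?_)
        rw [← ENNReal.ofReal_natCast (H (m - 1) (m - 1)), ← ENNReal.ofReal_natCast n,
          ← ENNReal.ofReal_natCast MC, ← ENNReal.ofReal_natCast m, ← ENNReal.ofReal_natCast D,
          ← ENNReal.ofReal_div_of_pos hm', ← ENNReal.ofReal_mul hn0,
          ← ENNReal.ofReal_add (by positivity) (by positivity), ← ENNReal.ofReal_mul hD'.le]
        congr 1
        rw [hM, hc]
        field_simp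
        ring
      exact (ENNReal.mul_le_mul_iff_right (by exact_mod_cast hD.ne')
        (ENNReal.natCast_ne_top D)).mp e1
    refine h2.trans ?_
    calc ENNReal.ofReal (n * c + M) ≤ ENNReal.ofReal (r * (n * (1 / 2))) := by
          apply ENNReal.ofReal_le_ofReal
          have h3 : M / (r / 2 - c) ≤ n := hN.trans hnN
          rw [div_le_iff₀ (by linarith)] at h3
          nlinarith
      _ = ENNReal.ofReal r * ((n : ℝ≥0∞) * (1 / 2)) := by
          rw [ENNReal.ofReal_mul hr.le, ENNReal.ofReal_mul hn0, ENNReal.ofReal_natCast]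
          congr 2
          rw [one_div, ENNReal.ofReal_inv_of_pos (by norm_num)]
          simp
      _ ≤ ENNReal.ofReal r * optMean n := by
          gcongr
          exact half_le_optMean n
  unfold OnlineAlg.ratio
  exact limsup_le_of_le (by isBoundedDefault) hev

end Pool.Agent.F1D
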