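import Pool.Agent.Lib.MP_f1d828_lc.Basic
import Pool.Agent.Lib.MP_f1d828_lc.Cert

/-! Lower bound for every on-line 2-bounded-space algorithm from a table of potentials. -/

open MeasureTheory Filter
open scoped ENNReal

namespace Pool.Agent.F1D

/-- `y` is in the interior of one of the `m` cells -/
def Good (m : ℕ) (y : ℝ) : Prop := ∃ j < m, y ∈ Set.Ioo ((j : ℝ) / m) (((j : ℝ) + 1) / m)

theorem cell_facts {m j : ℕ} (hm : 0 < m) (hj : j < m) {y : ℝ}
    (hy : y ∈ Set.Ioo ((j : ℝ) / m) (((j : ℝ) + 1) / m)) :
    (j : ℝ) < m * y ∧ m * y < j + 1 ∧ y ∈ Set.Icc (0 : ℝ) 1 ∧ ⌊(m : ℝ) * y⌋₊ = j := by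
  have hm' : (0 : ℝ) < m := by exact_mod_cast hm
  obtain ⟨h1, h2⟩ := hy
  have h3 : (j : ℝ) < m * y := by
    rw [div_lt_iff₀ hm'] at h1; linarith
  have h4 : m * y < j + 1 := by
    rw [lt_div_iff₀ hm'] at h2; linarith
  have hj' : (j : ℝ) + 1 ≤ m := by exact_mod_cast hj
  refine ⟨h3, h4, ⟨?_, ?_⟩, ?_⟩
  · by_contra hcon
    push Not at hcon
    have : (m : ℝ) * y < 0 := mul_neg_of_pos_of_neg hm' hcon
    have : (0 : ℝ) ≤ j := by positivity
    linarith
  · by_contra hcon
    push Not at hcon
    have : (m : ℝ) * 1 < m * y := mul_lt_mul_of_pos_left hcon hm'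
    linarith
  · rw [Nat.floor_eq_iff (by have : (0 : ℝ) ≤ j := by positivity
                             linarith)]
    exact ⟨h3.le, h4⟩

theorem Good.mem_Icc {m : ℕ} (hm : 0 < m) {y : ℝ} (h : Good m y) : y ∈ Set.Icc (0 : ℝ) 1 := by
  obtain ⟨j, hj, hy⟩ := h
  exact (cell_facts hm hj hy).2.2.1

theorem Good.floor_lt {m : ℕ} (hm : 0 < m) {y : ℝ} (h : Good m y) :
    ((⌊(m : ℝ) * y⌋₊ : ℕ) : ℝ) < m * y := by
  obtain ⟨j, hj, hy⟩ := h
  obtain ⟨h1, _, _, h4⟩ := cell_facts hm hj hy
  rw [h4]; exact h1

theorem good_snoc {m n : ℕ} {x : Fin n → ℝ} {y : ℝ} (hx : ∀ i, Good m (x i)) (hy : Good m y) :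
    ∀ i, Good m (Fin.snoc (α := fun _ => ℝ) x y i) := by
  intro i
  refine Fin.lastCases ?_ (fun i => ?_) i
  · simpa using hy
  · simpa using hx i

section count

variable {k : ℕ} (A : OnlineAlg k)

/-- the bins used -/
def OnlineAlg.used {n : ℕ} (x : Fin n → ℝ) : Finset ℕ :=
  Finset.univ.image fun i : Fin n => A.bin i.1 (upto x i)

theorem used_snoc {n : ℕ} (x : Fin n → ℝ) (y : ℝ) :
    A.used (Fin.snoc (α := fun _ => ℝ) x y) =
      insert (A.bin n (Fin.snoc (α := fun _ => ℝ) x y)) (A.used x) := by
  ext b
  simp only [OnlineAlg.used, Finset.mem_image, Finset.mem_univ, true_and, Finset.mem_insert]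
  constructor
  · rintro ⟨i, hi⟩
    revert hi
    refine Fin.lastCases ?_ (fun i => ?_) i
    · intro hi
      left
      rw [← hi]
      exact congrArg _ (upto_last _).symm
    · intro hi
      right
      rw [upto_snoc_castSucc] at hi
      exact ⟨i, hi⟩
  · rintro (rfl | ⟨i, hi⟩)
    · exact ⟨Fin.last n, congrArg _ (upto_last _)⟩
    · refine ⟨i.castSucc, ?_⟩
      rw [upto_snoc_castSucc]
      exact hi

theorem sum_snoc {n : ℕ} {M : Type*} [AddCommMonoid M] (f : ℝ → M) (x : Fin n → ℝ) (y : ℝ)
    (b : ℕ) :
    ∑ i with A.bin i.1 (upto (Fin.snoc (α := fun _ => ℝ) x y) i) = b,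
      f (Fin.snoc (α := fun _ => ℝ) x y i) =
    (∑ i with A.bin i.1 (upto x i) = b, f (x i)) +
      if A.bin n (Fin.snoc (α := fun _ => ℝ) x y) = b then f y else 0 := by
  rw [Finset.sum_filter, Fin.sum_univ_castSucc, Finset.sum_filter]
  congr 1
  · apply Finset.sum_congr rfl
    intro i _
    rw [upto_snoc_castSucc, Fin.snoc_castSucc]
    rfl
  · rw [Fin.snoc_last, upto_last]
    rfl

end count

variable (A : OnlineAlg 2)

/-- the total size of the items of a bin, every size rounded down -/
noncomputable def vlev (m : ℕ) {n : ℕ} (x : Fin n → ℝ) (b : ℕ) : ℕ :=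
  ∑ i with A.bin i.1 (upto x i) = b, ⌊(m : ℝ) * x i⌋₊

theorem vlev_snoc (m : ℕ) {n : ℕ} (x : Fin n → ℝ) (y : ℝ) (b : ℕ) :
    vlev A m (Fin.snoc (α := fun _ => ℝ) x y) b = vlev A m x b +
      if A.bin n (Fin.snoc (α := fun _ => ℝ) x y) = b then ⌊(m : ℝ) * y⌋₊ else 0 :=
  sum_snoc A (fun z => ⌊(m : ℝ) * z⌋₊) x y b

theorem vlev_lt {m : ℕ} (hm : 0 < m) {n : ℕ} {x : Fin n → ℝ} (hx : ∀ i, Good m (x i)) (b : ℕ) :
    vlev A m x b < m := by
  have hm' : (0 : ℝ) < m := by exact_mod_cast hm
  by_cases he : (Finset.univ.filter fun i : Fin n => A.bin i.1 (upto x i) = b) = ∅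
  · unfold vlev
    rw [he]
    simpa using hm
  · have hne : (Finset.univ.filter fun i : Fin n => A.bin i.1 (upto x i) = b).Nonempty :=
      Finset.nonempty_iff_ne_empty.mpr he
    have h1 : (vlev A m x b : ℝ) < m := by
      unfold vlev
      push_cast
      calc ∑ i with A.bin i.1 (upto x i) = b, ((⌊(m : ℝ) * x i⌋₊ : ℕ) : ℝ)
          < ∑ i with A.bin i.1 (upto x i) = b, (m : ℝ) * x i :=
            Finset.sum_lt_sum_of_nonempty hne (fun i _ => (hx i).floor_lt hm)
        _ = m * ∑ i with A.bin i.1 (upto x i) = b, x i := by rw [Finset.mul_sum]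
        _ ≤ m * 1 := by
            apply mul_le_mul_of_nonneg_left _ hm'.le
            exact A.capacity n x (fun i => (hx i).mem_Icc hm) b
        _ = m := mul_one _
    exact_mod_cast h1

/-- the two slots -/
def Rep (m : ℕ) (O : Finset ℕ) (v : ℕ → ℕ) (α β : ℕ) : Prop :=
  ∃ p q, p ≠ q ∧ O ⊆ {p, q} ∧ α = (if p ∈ O then v p else m - 1) ∧
    β = (if q ∈ O then v q else m - 1)

theorem exists_rep (m : ℕ) {O : Finset ℕ} (hO : O.card ≤ 2) (v : ℕ → ℕ) :
    ∃ α β, Rep m O v α β := by
  have : ∃ p q : ℕ, p ≠ q ∧ O ⊆ {p, q} := by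
    have h : O.card = 0 ∨ O.card = 1 ∨ O.card = 2 := by omega
    rcases h with h | h | h
    · rw [Finset.card_eq_zero] at h
      exact ⟨0, 1, by norm_num, by simp [h]⟩
    · rw [Finset.card_eq_one] at h
      obtain ⟨a, rfl⟩ := h
      exact ⟨a, a + 1, by omega, by simp⟩
    · rw [Finset.card_eq_two] at h
      obtain ⟨a, b, hab, rfl⟩ := h
      exact ⟨a, b, hab, subset_rfl⟩
  obtain ⟨p, q, h1, h2⟩ := this
  exact ⟨_, _, p, q, h1, h2, rfl, rfl⟩

variable {m D MC : ℕ} {H : ℕ → ℕ → ℕ}

theorem rep_lower (hm : 0 < m) (cert : CertL m D MC H) {O : Finset ℕ} {v : ℕ → ℕ} {α β : ℕ}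
    (hrep : Rep m O v α β) {r s ρ σ : ℕ} (hrs : r ≠ s) (hO : O ⊆ {r, s}) (hρ : ρ < m)
    (hσ : σ < m) (hr : r ∈ O → v r = ρ) (hs : s ∈ O → v s = σ) : H ρ σ ≤ H α β := by
  obtain ⟨p, q, hpq, hO', rfl, rfl⟩ := hrep
  have l1 := cert.last ρ hρ σ hσ
  have l2 : H ρ σ ≤ H σ (m - 1) := by
    rw [cert.symm ρ hρ σ hσ]; exact cert.last σ hσ ρ hρ
  have s1 := cert.symm ρ hρ (m - 1) (by omega)
  have s2 := cert.symm σ hσ (m - 1) (by omega)
  by_cases h1 : r ∈ O
  · by_cases h2 : s ∈ O
    · have r1 := hO' h1
      have r2 := hO' h2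
      simp only [Finset.mem_insert, Finset.mem_singleton] at r1 r2
      rcases r1 with rfl | rfl
      · rcases r2 with rfl | rfl
        · exact absurd rfl hrs
        · rw [if_pos h1, if_pos h2, hr h1, hs h2]
      · rcases r2 with rfl | rfl
        · rw [if_pos h1, if_pos h2, hr h1, hs h2]
          exact (cert.symm ρ hρ σ hσ).le
        · exact absurd rfl hrs
    · have r1 := hO' h1
      simp only [Finset.mem_insert, Finset.mem_singleton] at r1
      have hO2 : ∀ z ∈ O, z = r := by
        intro z hz
        have := hO hz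
        simp only [Finset.mem_insert, Finset.mem_singleton] at this
        rcases this with h | h
        · exact h
        · exact absurd (h ▸ hz) h2
      rcases r1 with rfl | rfl
      · have : q ∉ O := fun hq => hpq (hO2 q hq).symm
        rw [if_pos h1, if_neg this, hr h1]
        exact l1
      · have : p ∉ O := fun hp => hpq (hO2 p hp)
        rw [if_pos h1, if_neg this, hr h1, ← s1]
        exact l1
  · by_cases h2 : s ∈ O
    · have r2 := hO' h2
      simp only [Finset.mem_insert, Finset.mem_singleton] at r2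
      have hO2 : ∀ z ∈ O, z = s := by
        intro z hz
        have := hO hz
        simp only [Finset.mem_insert, Finset.mem_singleton] at this
        rcases this with h | h
        · exact absurd (h ▸ hz) h1
        · exact h
      rcases r2 with rfl | rfl
      · have : q ∉ O := fun hq => hpq (hO2 q hq).symm
        rw [if_pos h2, if_neg this, hs h2]
        exact l2
      · have : p ∉ O := fun hp => hpq (hO2 p hp)
        rw [if_pos h2, if_neg this, hs h2, ← s2]
        exact l2
    · have hO2 : ∀ z, z ∉ O := by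
        intro z hz
        have := hO hz
        simp only [Finset.mem_insert, Finset.mem_singleton] at this
        rcases this with h | h
        · exact h1 (h ▸ hz)
        · exact h2 (h ▸ hz)
      rw [if_neg (hO2 p), if_neg (hO2 q)]
      calc H ρ σ ≤ H ρ (m - 1) := l1
        _ = H (m - 1) ρ := s1
        _ ≤ H (m - 1) (m - 1) := cert.last _ (by omega) _ hρ

theorem lower_step (hm : 0 < m) (cert : CertL m D MC H) {t : ℕ} {x : Fin t → ℝ}
    (hx : ∀ i, Good m (x i)) {j : ℕ} (hj : j < m) {y : ℝ}
    (hy : y ∈ Set.Ioo ((j : ℝ) / m) (((j : ℝ) + 1) / m)) {α β : ℕ}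
    (hrep : Rep m (A.opn t x) (vlev A m x) α β) {α' β' : ℕ}
    (hrep' : Rep m (A.opn (t + 1) (Fin.snoc (α := fun _ => ℝ) x y))
      (vlev A m (Fin.snoc (α := fun _ => ℝ) x y)) α' β') :
    D * A.count x + opt4 m D 0 H α β j ≤
      D * A.count (Fin.snoc (α := fun _ => ℝ) x y) + H α' β' := by
  have hyg : Good m y := ⟨j, hj, hy⟩
  obtain ⟨c1, c2, c3, c4⟩ := cell_facts hm hj hy
  set z : Fin (t + 1) → ℝ := Fin.snoc (α := fun _ => ℝ) x y with hz
  have hzg : ∀ i, Good m (z i) := good_snoc hx hyg
  have hzI : ∀ i, z i ∈ Set.Icc (0 : ℝ) 1 := fun i => (hzg i).mem_Icc hm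
  have hinit : Fin.init z = x := by
    funext i; simp [hz, Fin.init]
  have hsub := A.opn_subset t z hzI
  have hcard := A.card_le t z hzI
  have hmem := A.bin_mem t z hzI
  rw [hinit] at hsub hmem
  set b := A.bin t z with hb
  set O := A.opn t x with hO
  set O' := A.opn (t + 1) z with hO'
  have hv : ∀ c, vlev A m z c = vlev A m x c + if b = c then j else 0 := by
    intro c
    rw [hz, vlev_snoc, c4]
  have hcount : A.count z = (insert b (A.used x)).card := by
    rw [← used_snoc A x y]; rfl
  have hcx : A.count x = (A.used x).card := rfl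
  obtain ⟨p, q, hpq, hOpq, hα, hβ⟩ := hrep
  have hαm : α < m := by
    rw [hα]; split
    · exact vlev_lt A hm hx p
    · omega
  have hβm : β < m := by
    rw [hβ]; split
    · exact vlev_lt A hm hx q
    · omega
  by_cases hbO : b ∈ O
  · have hle : A.count x ≤ A.count z := by
      rw [hcount, hcx]
      exact Finset.card_le_card (Finset.subset_insert _ _)
    have hOO : O' ⊆ O := by
      intro u hu
      have := hsub hu
      rcases Finset.mem_insert.mp this with h | h
      · rw [h]; exact hbO
      · exact h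
    have hbpq := hOpq hbO
    simp only [Finset.mem_insert, Finset.mem_singleton] at hbpq
    have hfin : opt4 m D 0 H α β j ≤ H α' β' := by
      rcases hbpq with hbp | hbq
      · have hpO : p ∈ O := hbp ▸ hbO
        rw [if_pos hpO] at hα
        have hvp : vlev A m z p = α + j := by
          rw [hv, if_pos hbp, hα]
        have hlt : α + j < m := hvp ▸ vlev_lt A hm hzg p
        have h1 : H (α + j) β ≤ H α' β' := by
          refine rep_lower hm cert hrep' hpq (hOO.trans hOpq) hlt hβm (fun _ => hvp) ?_
          intro hq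
          have hqO := hOO hq
          rw [if_pos hqO] at hβ
          rw [hv, if_neg (by rw [hbp]; exact hpq), hβ, add_zero]
        refine le_trans ?_ h1
        rw [cert.symm _ hlt _ hβm]
        unfold opt4
        rw [if_pos (by omega : α + j + 0 < m)]
        simp only [add_zero]
        omega
      · have hqO : q ∈ O := hbq ▸ hbO
        rw [if_pos hqO] at hβ
        have hvq : vlev A m z q = β + j := by
          rw [hv, if_pos hbq, hβ]
        have hlt : β + j < m := hvq ▸ vlev_lt A hm hzg q
        have h1 : H α (β + j) ≤ H α' β' := by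
          refine rep_lower hm cert hrep' hpq (hOO.trans hOpq) hαm hlt ?_ (fun _ => hvq)
          intro hp
          have hpO := hOO hp
          rw [if_pos hpO] at hα
          rw [hv, if_neg (by rw [hbq]; exact hpq.symm), hα, add_zero]
        refine le_trans ?_ h1
        unfold opt4
        rw [if_pos (by omega : β + j + 0 < m)]
        simp only [add_zero]
        omega
    have := Nat.mul_le_mul_left D hle
    omega
  · have hnew : ∀ i : Fin t, A.bin i.1 (upto x i) ≠ b := by
      rcases hmem with h | h
      · exact absurd h hbO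
      · intro i
        have := h i
        rwa [hz, upto_snoc_castSucc] at this
    have hbu : b ∉ A.used x := by
      simp only [OnlineAlg.used, Finset.mem_image, Finset.mem_univ, true_and, not_exists]
      exact hnew
    have hcount' : A.count z = A.count x + 1 := by
      rw [hcount, Finset.card_insert_of_notMem hbu, hcx]
    have hvb : vlev A m z b = j := by
      rw [hv, if_pos rfl]
      have : vlev A m x b = 0 := by
        unfold vlev
        rw [Finset.filter_false_of_mem (fun i _ => hnew i)]
        simp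
      omega
    have hers : (O'.erase b).card ≤ 1 := by
      have h1 : (insert b (O'.erase b)).card ≤ 2 := by
        refine le_trans (Finset.card_le_card ?_) hcard
        exact Finset.insert_subset_insert _ (Finset.erase_subset _ _)
      rw [Finset.card_insert_of_notMem (Finset.notMem_erase _ _)] at h1
      omega
    have hersO : O'.erase b ⊆ O := by
      intro u hu
      have h1 := Finset.mem_erase.mp hu
      rcases Finset.mem_insert.mp (hsub h1.2) with h | h
      · exact absurd h h1.1
      · exact h
    have hfin : ∃ c, (c = α ∨ c = β) ∧ H j c ≤ H α' β' := by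
      rcases Finset.eq_empty_or_nonempty (O'.erase b) with he | ⟨u, hu⟩
      · refine ⟨α, Or.inl rfl, rep_lower hm cert hrep' (r := b) (s := b + 1) (by omega) ?_ hj hαm
          (fun _ => hvb) ?_⟩
        · intro w hw
          by_cases hwb : w = b
          · simp [hwb]
          · have : w ∈ O'.erase b := Finset.mem_erase.mpr ⟨hwb, hw⟩
            rw [he] at this
            exact absurd this (Finset.notMem_empty _)
        · intro hw
          have : b + 1 ∈ O'.erase b := Finset.mem_erase.mpr ⟨by omega, hw⟩
          rw [he] at this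
          exact absurd this (Finset.notMem_empty _)
      · have hu' := Finset.mem_erase.mp hu
        have huO := hersO hu
        have hsub2 : O' ⊆ {b, u} := by
          intro w hw
          by_cases hwb : w = b
          · simp [hwb]
          · have hw2 : w ∈ O'.erase b := Finset.mem_erase.mpr ⟨hwb, hw⟩
            have : w = u := by
              rw [Finset.card_le_one] at hers
              exact hers w hw2 u hu
            simp [this]
        have hvu : vlev A m z u = vlev A m x u := by
          rw [hv, if_neg (fun h => hu'.1 h.symm), add_zero]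
        have hupq := hOpq huO
        simp only [Finset.mem_insert, Finset.mem_singleton] at hupq
        rcases hupq with rfl | rfl
        · rw [if_pos huO] at hα
          exact ⟨α, Or.inl rfl, rep_lower hm cert hrep' (fun h => hu'.1 h.symm) hsub2 hj hαm
            (fun _ => hvb) (fun _ => by rw [hvu, hα])⟩
        · rw [if_pos huO] at hβ
          exact ⟨β, Or.inr rfl, rep_lower hm cert hrep' (fun h => hu'.1 h.symm) hsub2 hj hβm
            (fun _ => hvb) (fun _ => by rw [hvu, hβ])⟩
    obtain ⟨c, hc, hle⟩ := hfin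
    have hopt : opt4 m D 0 H α β j ≤ D + H j c := by
      have s1 := cert.symm j hj α hαm
      have s2 := cert.symm j hj β hβm
      unfold opt4
      rcases hc with rfl | rfl
      · rw [s1]; omega
      · rw [s2]; omega
    rw [hcount', Nat.mul_add]
    omega

theorem lower_aux (hm : 0 < m) (cert : CertL m D MC H) : ∀ (t : ℕ)
    (F : (Fin t → ℝ) → ℝ≥0∞) (K : ℝ≥0∞), Measurable F →
    (∀ x, (∀ i, Good m (x i)) → ∀ α β, Rep m (A.opn t x) (vlev A m x) α β →
      ((D * A.count x + H α β : ℕ) : ℝ≥0∞) + K ≤ F x) →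
    K + t * ((MC : ℝ≥0∞) / m) ≤ ∫⁻ x, F x ∂(law t)
  | 0, F, K, _, hF => by
      have h0 : ∀ x : Fin 0 → ℝ, F x = F (fun i => i.elim0) := fun x => by
        congr 1; funext i; exact i.elim0
      have h1 : ∫⁻ x, F x ∂(law 0) = F (fun i => i.elim0) := by
        rw [lintegral_congr h0, lintegral_const]; simp
      rw [h1]
      obtain ⟨α, β, hr⟩ := exists_rep m (O := A.opn 0 (fun i => i.elim0))
        (by rw [A.opn_zero]; simp) (vlev A m (fun i => i.elim0))
      have := hF (fun i => i.elim0) (fun i => i.elim0) α β hr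
      simp only [Nat.cast_zero, zero_mul, add_zero]
      exact le_trans le_add_self this
  | t + 1, F, K, hFm, hF => by
      rw [lintegral_law_succ hFm]
      have ih := lower_aux hm cert t (fun x => ∫⁻ y, F (Fin.snoc x y) ∂unif)
        (K + (MC : ℝ≥0∞) / m) (measurable_snoc_lintegral hFm) ?_
      · refine le_trans (le_of_eq ?_) ih
        push_cast
        ring
      · intro x hx α β hrep
        have hm0 : (m : ℝ≥0∞) ≠ 0 := by exact_mod_cast hm.ne'
        have hmt : (m : ℝ≥0∞) ≠ ⊤ := ENNReal.natCast_ne_top m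
        have hαβ : α < m ∧ β < m := by
          obtain ⟨p, q, -, -, hα, hβ⟩ := hrep
          constructor
          · rw [hα]; split
            · exact vlev_lt A hm hx p
            · omega
          · rw [hβ]; split
            · exact vlev_lt A hm hx q
            · omega
        refine le_trans ?_ (le_lintegral_unif hm
          (g := fun j => ((D * A.count x + opt4 m D 0 H α β j : ℕ) : ℝ≥0∞) + K) ?_)
        · rw [ENNReal.le_div_iff_mul_le (Or.inl hm0) (Or.inl hmt)]
          have hmain := cert.main α hαβ.1 β hαβ.2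
          have e1 : (((D * A.count x + H α β : ℕ) : ℝ≥0∞) + (K + (MC : ℝ≥0∞) / m)) * m =
              ((m * (D * A.count x) + (m * H α β + MC) : ℕ) : ℝ≥0∞) + m * K := by
            rw [add_mul, add_mul, ENNReal.div_mul_cancel hm0 hmt]
            push_cast
            ring
          have e2 : ∑ j ∈ Finset.range m,
              (((D * A.count x + opt4 m D 0 H α β j : ℕ) : ℝ≥0∞) + K) =
              ((m * (D * A.count x) + ∑ j ∈ Finset.range m, opt4 m D 0 H α β j : ℕ) : ℝ≥0∞)
                + m * K := by
            rw [Finset.sum_add_distrib, ← Nat.cast_sum, Finset.sum_add_distrib]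
            simp
          rw [e1, e2]
          gcongr
        · intro j hj y hy
          obtain ⟨α', β', hr'⟩ := exists_rep m
            (O := A.opn (t + 1) (Fin.snoc (α := fun _ => ℝ) x y))
            (by
              have := A.card_le t (Fin.snoc (α := fun _ => ℝ) x y)
                (fun i => (good_snoc hx ⟨j, hj, hy⟩ i).mem_Icc hm)
              exact le_trans (Finset.card_le_card (Finset.subset_insert _ _)) this)
            (vlev A m (Fin.snoc (α := fun _ => ℝ) x y))
          have h1 := lower_step A hm cert hx hj hy hrep hr'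
          have h2 := hF (Fin.snoc (α := fun _ => ℝ) x y) (good_snoc hx ⟨j, hj, hy⟩) α' β' hr'
          refine le_trans ?_ h2
          gcongr

end Pool.Agent.F1D
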