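import Mathlib

/-! On-line `k`-bounded-space bin packing of i.i.d. uniform items: definitions. -/

open MeasureTheory Filter
open scoped ENNReal

namespace Pool.Agent.F1D

/-- The continuous uniform distribution `U(0,1)`. -/
noncomputable def unif : Measure ℝ := volume.restrict (Set.Icc 0 1)

/-- The distribution of the list `L_n = (x_0, ..., x_{n-1})` of `n` independent `U(0,1)` sizes. -/
noncomputable def law (n : ℕ) : Measure (Fin n → ℝ) := Measure.pi fun _ => unif

/-- The sizes of the items number `0, ..., i` of a list. -/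
def upto {n : ℕ} (x : Fin n → ℝ) (i : Fin n) : Fin (i.1 + 1) → ℝ :=
  fun j => x (Fin.castLE (Nat.succ_le_of_lt i.2) j)

/-- An on-line `k`-bounded-space packing algorithm (bins have capacity `1` and are named by
natural numbers, items are numbered `0, 1, 2, ...`). The rules are required for lists of
sizes in `[0,1]`. -/
structure OnlineAlg (k : ℕ) where
  /-- the bin that receives item number `t`, as a function of the sizes of the items `0,...,t` -/
  bin : (t : ℕ) → (Fin (t + 1) → ℝ) → ℕ
  /-- the set of the bins that are open after the first `t` items have been packed -/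
  opn : (t : ℕ) → (Fin t → ℝ) → Finset ℕ
  /-- the decisions are measurable functions of the sizes -/
  measurable_bin : ∀ t, Measurable (bin t)
  /-- in the beginning no bin is open -/
  opn_zero : ∀ x, opn 0 x = ∅
  /-- item number `t` goes into an open bin or into a new one, which has no item yet -/
  bin_mem : ∀ (t : ℕ) (x : Fin (t + 1) → ℝ), (∀ i, x i ∈ Set.Icc (0 : ℝ) 1) →
    bin t x ∈ opn t (Fin.init x) ∨ ∀ i : Fin t, bin i.1 (upto x i.castSucc) ≠ bin t x
  /-- a bin that is open after item `t` was open before or has just received item `t`;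
  closed bins are never opened again -/
  opn_subset : ∀ (t : ℕ) (x : Fin (t + 1) → ℝ), (∀ i, x i ∈ Set.Icc (0 : ℝ) 1) →
    opn (t + 1) x ⊆ insert (bin t x) (opn t (Fin.init x))
  /-- at every moment at most `k` bins are open: when item `t` is packed, its bin and the bins
  that stay open afterwards are open -/
  card_le : ∀ (t : ℕ) (x : Fin (t + 1) → ℝ), (∀ i, x i ∈ Set.Icc (0 : ℝ) 1) →
    (insert (bin t x) (opn (t + 1) x)).card ≤ k
  /-- the total size of the items in a bin is at most `1` -/
  capacity : ∀ (t : ℕ) (x : Fin t → ℝ), (∀ i, x i ∈ Set.Icc (0 : ℝ) 1) →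
    ∀ b : ℕ, ∑ i with bin i.1 (upto x i) = b, x i ≤ 1

/-- `A(L)`: the number of bins used on the list `x`. -/
def OnlineAlg.count {k : ℕ} (A : OnlineAlg k) {n : ℕ} (x : Fin n → ℝ) : ℕ :=
  (Finset.univ.image fun i : Fin n => A.bin i.1 (upto x i)).card

/-- `OPT(L)`: the least number of bins into which the list can be packed. -/
noncomputable def opt {n : ℕ} (x : Fin n → ℝ) : ℕ :=
  sInf {b : ℕ | ∃ f : Fin n → Fin b, ∀ j, ∑ i with f i = j, x i ≤ 1}

/-- `E[A(L_n)]`. -/
noncomputable def OnlineAlg.mean {k : ℕ} (A : OnlineAlg k) (n : ℕ) : ℝ≥0∞ :=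
  ∫⁻ x, (A.count x : ℝ≥0∞) ∂(law n)

/-- `E[OPT(L_n)]`. -/
noncomputable def optMean (n : ℕ) : ℝ≥0∞ := ∫⁻ x, (opt x : ℝ≥0∞) ∂(law n)

/-- The asymptotic expected ratio `R^∞_A(U(0,1)) = limsup E[A(L_n)] / E[OPT(L_n)]`. -/
noncomputable def OnlineAlg.ratio {k : ℕ} (A : OnlineAlg k) : ℝ≥0∞ :=
  limsup (fun n => A.mean n / optMean n) atTop

/-- `ρ_k`: the infimum of the asymptotic expected ratios of the on-line `k`-bounded-space
algorithms. -/
noncomputable def rho (k : ℕ) : ℝ≥0∞ := ⨅ A : OnlineAlg k, A.ratio

end Pool.Agent.F1D
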