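import Mathlib
import Pool.Agent.Lib.MP_f1d828_lc.ChkDef

/-! Packed vectors of natural numbers inside one big natural number (fields of `w` bits), and
the correctness of the field-wise minimum computed with a few operations on big numbers. -/

namespace Pool.Agent.F1D

/-- the number with `K` fields of `w` bits with values `f 0, f 1, ...` -/
def pk (w : ℕ) : ℕ → (ℕ → ℕ) → ℕ
  | 0, _ => 0
  | K + 1, f => f 0 + 2 ^ w * pk w K (fun j => f (j + 1))

theorem pk_congr {w : ℕ} : ∀ {K : ℕ} {f g : ℕ → ℕ}, (∀ j < K, f j = g j) → pk w K f = pk w K g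
  | 0, _, _, _ => rfl
  | K + 1, f, g, h => by
      simp only [pk]
      rw [h 0 (by omega), pk_congr (K := K) (fun j hj => h (j + 1) (by omega))]

theorem pk_add {w : ℕ} : ∀ (K : ℕ) (f g : ℕ → ℕ), pk w K f + pk w K g = pk w K (fun j => f j + g j)
  | 0, _, _ => rfl
  | K + 1, f, g => by
      simp only [pk]
      rw [← pk_add K (fun j => f (j + 1)) (fun j => g (j + 1))]
      ring

theorem pk_sub {w : ℕ} (K : ℕ) (f g : ℕ → ℕ) (h : ∀ j < K, g j ≤ f j) :
    pk w K f - pk w K g = pk w K (fun j => f j - g j) := by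
  have : pk w K f = pk w K (fun j => f j - g j) + pk w K g := by
    rw [pk_add]
    exact pk_congr (fun j hj => by have := h j hj; omega)
  omega

theorem pk_const_mul {w : ℕ} : ∀ (K c : ℕ) (f : ℕ → ℕ), pk w K (fun j => c * f j) = c * pk w K f
  | 0, _, _ => by simp [pk]
  | K + 1, c, f => by
      simp only [pk]
      rw [pk_const_mul K c (fun j => f (j + 1))]
      ring

theorem pk_lt {w : ℕ} : ∀ (K : ℕ) (f : ℕ → ℕ), (∀ j < K, f j < 2 ^ w) → pk w K f < 2 ^ (w * K)
  | 0, _, _ => by simp [pk]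
  | K + 1, f, h => by
      simp only [pk]
      have h0 := h 0 (by omega)
      have h1 := pk_lt K (fun j => f (j + 1)) (fun j hj => h (j + 1) (by omega))
      have : 2 ^ (w * (K + 1)) = 2 ^ w * 2 ^ (w * K) := by rw [← pow_add]; congr 1; ring
      rw [this]
      calc f 0 + 2 ^ w * pk w K (fun j => f (j + 1))
          < 2 ^ w + 2 ^ w * pk w K (fun j => f (j + 1)) := by omega
        _ = 2 ^ w * (pk w K (fun j => f (j + 1)) + 1) := by ring
        _ ≤ 2 ^ w * 2 ^ (w * K) := Nat.mul_le_mul_left _ h1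

theorem land_split {w x y X Y : ℕ} (hx : x < 2 ^ w) (hy : y < 2 ^ w) :
    (x + 2 ^ w * X) &&& (y + 2 ^ w * Y) = (x &&& y) + 2 ^ w * (X &&& Y) := by
  apply Nat.eq_of_testBit_eq
  intro i
  have hxy : (x &&& y) < 2 ^ w := Nat.and_lt_two_pow x hy
  rw [Nat.testBit_and, add_comm x, add_comm y, add_comm (x &&& y),
    Nat.testBit_two_pow_mul_add X hx, Nat.testBit_two_pow_mul_add Y hy,
    Nat.testBit_two_pow_mul_add _ hxy]
  split <;> simp [Nat.testBit_and]

theorem pk_land {w : ℕ} : ∀ (K : ℕ) (f g : ℕ → ℕ), (∀ j < K, f j < 2 ^ w) → (∀ j < K, g j < 2 ^ w) →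
    pk w K f &&& pk w K g = pk w K (fun j => f j &&& g j)
  | 0, _, _, _, _ => by simp [pk]
  | K + 1, f, g, hf, hg => by
      simp only [pk]
      rw [land_split (hf 0 (by omega)) (hg 0 (by omega)),
        pk_land K _ _ (fun j hj => hf (j + 1) (by omega)) (fun j hj => hg (j + 1) (by omega))]

theorem pk_append {w : ℕ} : ∀ (K L : ℕ) (f : ℕ → ℕ),
    pk w (K + L) f = pk w K f + 2 ^ (w * K) * pk w L (fun j => f (K + j))
  | 0, L, f => by simp [pk]
  | K + 1, L, f => by
      have e : K + 1 + L = (K + L) + 1 := by ring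
      rw [e]
      simp only [pk]
      rw [pk_append K L (fun j => f (j + 1))]
      have : 2 ^ (w * (K + 1)) = 2 ^ w * 2 ^ (w * K) := by rw [← pow_add]; congr 1; ring
      rw [this]
      have e2 : (fun j => f (K + 1 + j)) = (fun j => f (K + j + 1)) := by
        funext j; congr 1; ring
      rw [e2]; ring

theorem pk_mod {w : ℕ} (K L : ℕ) (f : ℕ → ℕ) (hf : ∀ j < K, f j < 2 ^ w) :
    pk w (K + L) f % 2 ^ (w * K) = pk w K f := by
  rw [pk_append, Nat.add_mul_mod_self_left]
  exact Nat.mod_eq_of_lt (pk_lt K f hf)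

theorem pk_div {w : ℕ} (K L : ℕ) (f : ℕ → ℕ) (hf : ∀ j < K, f j < 2 ^ w) :
    pk w (K + L) f / 2 ^ (w * K) = pk w L (fun j => f (K + j)) := by
  rw [pk_append, Nat.add_mul_div_left _ _ (by positivity),
    Nat.div_eq_of_lt (pk_lt K f hf), zero_add]

/-- the field number `j` -/
def dig (w X j : ℕ) : ℕ := X / 2 ^ (w * j) % 2 ^ w

theorem dig_lt (w X j : ℕ) : dig w X j < 2 ^ w := Nat.mod_lt _ (by positivity)

theorem pk_dig {w : ℕ} : ∀ (K X : ℕ), X < 2 ^ (w * K) → pk w K (dig w X) = X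
  | 0, X, h => by
      simp at h; simp [pk, h]
  | K + 1, X, h => by
      simp only [pk]
      have h1 : X / 2 ^ w < 2 ^ (w * K) := by
        rw [Nat.div_lt_iff_lt_mul (by positivity), ← pow_add]
        have : w * K + w = w * (K + 1) := by ring
        rwa [this]
      have e : (fun j => dig w X (j + 1)) = dig w (X / 2 ^ w) := by
        funext j
        simp only [dig]
        rw [Nat.div_div_eq_div_mul, ← pow_add]
        congr 3; ring
      rw [e, pk_dig K _ h1]
      simp only [dig, mul_zero, pow_zero, Nat.div_one]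
      exact Nat.mod_add_div X (2 ^ w)

theorem dig_pk {w K : ℕ} {f : ℕ → ℕ} (hf : ∀ j < K, f j < 2 ^ w) {j : ℕ} (hj : j < K) :
    dig w (pk w K f) j = f j := by
  obtain ⟨L, rfl⟩ : ∃ L, K = j + (1 + L) := ⟨K - j - 1, by omega⟩
  simp only [dig]
  rw [pk_div j (1 + L) f (fun i hi => hf i (by omega))]
  rw [pk_append 1 L]
  simp only [pk, mul_one, mul_zero, add_zero]
  rw [Nat.add_mul_mod_self_left]
  exact Nat.mod_eq_of_lt (hf j (by omega))

theorem pk_rep {w : ℕ} : ∀ (K : ℕ), pk w K (fun _ => 1) * (2 ^ w - 1) = 2 ^ (w * K) - 1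
  | 0 => by simp [pk]
  | K + 1 => by
      simp only [pk]
      have h := pk_rep (w := w) K
      have : 2 ^ (w * (K + 1)) = 2 ^ w * 2 ^ (w * K) := by rw [← pow_add]; congr 1; ring
      rw [this]
      have p1 : 1 ≤ 2 ^ w := Nat.one_le_two_pow
      have p2 : 1 ≤ 2 ^ (w * K) := Nat.one_le_two_pow
      rw [add_mul, mul_assoc, h, one_mul, Nat.mul_sub, mul_one]
      have : 2 ^ w ≤ 2 ^ w * 2 ^ (w * K) := Nat.le_mul_of_pos_right _ (by positivity)
      omega

theorem pk_rep' {w : ℕ} (hw : 0 < w) (K : ℕ) :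
    (2 ^ (w * K) - 1) / (2 ^ w - 1) = pk w K (fun _ => 1) := by
  rw [← pk_rep]
  apply Nat.mul_div_cancel
  have : 2 ≤ 2 ^ w := by
    calc 2 = 2 ^ 1 := rfl
      _ ≤ 2 ^ w := Nat.pow_le_pow_right (by norm_num) hw
  omega

theorem pk_const {w : ℕ} (K v : ℕ) : pk w K (fun _ => v) = v * pk w K (fun _ => 1) := by
  rw [← pk_const_mul]; simp

theorem pk_modsum {w : ℕ} : ∀ (K : ℕ) (f : ℕ → ℕ),
    pk w K f ≡ ∑ j ∈ Finset.range K, f j [MOD (2 ^ w - 1)]
  | 0, _ => by simp [pk]; rfl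
  | K + 1, f => by
      simp only [pk]
      rw [Finset.sum_range_succ']
      have h := pk_modsum (w := w) K (fun j => f (j + 1))
      have p1 : 1 ≤ 2 ^ w := Nat.one_le_two_pow
      have h2 : 2 ^ w ≡ 1 [MOD (2 ^ w - 1)] :=
        (Nat.modEq_iff_dvd' p1).mpr (dvd_refl _) |>.symm
      calc f 0 + 2 ^ w * pk w K (fun j => f (j + 1))
          ≡ f 0 + 1 * ∑ j ∈ Finset.range K, f (j + 1) [MOD (2 ^ w - 1)] :=
            Nat.ModEq.add_left _ (Nat.ModEq.mul h2 h)
        _ = ∑ j ∈ Finset.range K, f (j + 1) + f 0 := by ring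

theorem land_guard {w1 t : ℕ} (ht : t < 2 ^ (w1 + 1)) :
    t &&& 2 ^ w1 = if 2 ^ w1 ≤ t then 2 ^ w1 else 0 := by
  rw [Nat.and_two_pow]
  split
  · rename_i h
    have : t.testBit w1 = true := by
      rw [Nat.testBit_eq_decide_div_mod_eq]
      have h1 : t / 2 ^ w1 = 1 := by
        apply Nat.div_eq_of_lt_le
        · simpa using h
        · rw [pow_succ] at ht; omega
      simp [h1]
    simp [this]
  · rename_i h
    have : t.testBit w1 = false := Nat.testBit_lt_two_pow (by omega)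
    simp [this]

theorem pminR_spec {w1 K : ℕ} {f g : ℕ → ℕ} (hf : ∀ j < K, f j < 2 ^ w1)
    (hg : ∀ j < K, g j < 2 ^ w1) :
    pminR w1 (pk (w1 + 1) K (fun _ => 2 ^ w1)) (pk (w1 + 1) K f) (pk (w1 + 1) K g) =
      pk (w1 + 1) K (fun j => min (f j) (g j)) := by
  have hpow : 2 ^ (w1 + 1) = 2 ^ w1 + 2 ^ w1 := by ring
  have hp : 1 ≤ 2 ^ w1 := Nat.one_le_two_pow
  have hT : Nat.sub (Nat.add (pk (w1 + 1) K f) (pk (w1 + 1) K (fun _ => 2 ^ w1))) (pk (w1 + 1) K g)
      = pk (w1 + 1) K (fun j => f j + 2 ^ w1 - g j) := by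
    show pk (w1 + 1) K f + pk (w1 + 1) K (fun _ => 2 ^ w1) - pk (w1 + 1) K g = _
    rw [pk_add, pk_sub]
    intro j hj
    have := hg j hj
    omega
  have hTlt : ∀ j < K, f j + 2 ^ w1 - g j < 2 ^ (w1 + 1) := by
    intro j hj
    have := hf j hj
    omega
  have ht : Nat.land (pk (w1 + 1) K (fun j => f j + 2 ^ w1 - g j)) (pk (w1 + 1) K (fun _ => 2 ^ w1))
      = pk (w1 + 1) K (fun j => if g j ≤ f j then 2 ^ w1 else 0) := by
    show pk (w1 + 1) K (fun j => f j + 2 ^ w1 - g j) &&& pk (w1 + 1) K (fun _ => 2 ^ w1) = _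
    rw [pk_land K _ _ hTlt (fun j _ => by omega)]
    apply pk_congr
    intro j hj
    have h1 := hTlt j hj
    have h2 := hg j hj
    rw [land_guard h1]
    by_cases h : g j ≤ f j
    · rw [if_pos h, if_pos (by omega)]
    · rw [if_neg h, if_neg (by omega)]
  have hs : Nat.shiftRight (pk (w1 + 1) K (fun j => if g j ≤ f j then 2 ^ w1 else 0)) w1
      = pk (w1 + 1) K (fun j => if g j ≤ f j then 1 else 0) := by
    show (pk (w1 + 1) K (fun j => if g j ≤ f j then 2 ^ w1 else 0)) >>> w1 = _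
    have : pk (w1 + 1) K (fun j => if g j ≤ f j then 2 ^ w1 else 0) =
        2 ^ w1 * pk (w1 + 1) K (fun j => if g j ≤ f j then 1 else 0) := by
      rw [← pk_const_mul]
      apply pk_congr
      intro j _
      split <;> simp
    rw [this, Nat.shiftRight_eq_div_pow, Nat.mul_div_cancel_left _ (by positivity)]
  unfold pminR
  rw [hT, ht, hs]
  show pk (w1 + 1) K f - (pk (w1 + 1) K (fun j => f j + 2 ^ w1 - g j) &&&
    (pk (w1 + 1) K (fun j => if g j ≤ f j then 2 ^ w1 else 0) -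
      pk (w1 + 1) K (fun j => if g j ≤ f j then 1 else 0))) = _
  rw [pk_sub K _ _ (fun j _ => by split <;> omega)]
  rw [pk_land K _ _ hTlt (fun j _ => by split <;> omega)]
  rw [pk_sub]
  · apply pk_congr
    intro j hj
    have h1 := hf j hj
    have h2 := hg j hj
    by_cases h : g j ≤ f j
    · simp only [h, if_true]
      have e : f j + 2 ^ w1 - g j = 2 ^ w1 * 1 + (f j - g j) := by omega
      rw [Nat.and_two_pow_sub_one_eq_mod, e, Nat.mul_add_mod, Nat.mod_eq_of_lt (by omega)]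
      omega
    · simp only [h, if_false]
      simp
      omega
  · intro j hj
    have h1 := hf j hj
    have h2 := hg j hj
    by_cases h : g j ≤ f j
    · simp only [h, if_true]
      have e : f j + 2 ^ w1 - g j = 2 ^ w1 * 1 + (f j - g j) := by omega
      rw [Nat.and_two_pow_sub_one_eq_mod, e, Nat.mul_add_mod, Nat.mod_eq_of_lt (by omega)]
      omega
    · simp only [h, if_false]
      simp

end Pool.Agent.F1D
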