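import Pool.Agent.Lib.MP_f1d828_lc.Lower

/-! The packing algorithm given by a table of potentials, and its expected number of bins. -/

open MeasureTheory Filter
open scoped ENNReal

namespace Pool.Agent.F1D

/-- two slots with the labels of the open bins and their levels (rounded up) -/
structure St where
  p : Option ℕ
  q : Option ℕ
  a : ℕ
  b : ℕ

/-- one step: item of class `j` at time `t` -/
def stepS (m D : ℕ) (H : ℕ → ℕ → ℕ) (t : ℕ) (s : St) (j : ℕ) : St × ℕ :=
  if s.a + j + 1 < m ∧ H s.b (s.a + j + 1) ≤ min (min (D + H s.a j) (D + H s.b j))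
      (if s.b + j + 1 < m then H s.a (s.b + j + 1) else D + H s.a j) then
    (⟨s.p, s.q, s.a + j + 1, s.b⟩, s.p.getD t)
  else if s.b + j + 1 < m ∧ H s.a (s.b + j + 1) ≤ min (D + H s.a j) (D + H s.b j) then
    (⟨s.p, s.q, s.a, s.b + j + 1⟩, s.q.getD t)
  else if H s.a j ≤ H s.b j then (⟨s.p, some t, s.a, j⟩, t)
  else (⟨some t, s.q, j, s.b⟩, t)

def runS (m D : ℕ) (H : ℕ → ℕ → ℕ) : (t : ℕ) → (Fin t → ℕ) → St
  | 0, _ => ⟨none, none, m - 1, m - 1⟩
  | t + 1, js => (stepS m D H t (runS m D H t (Fin.init js)) (js (Fin.last t))).1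

def labS (m D : ℕ) (H : ℕ → ℕ → ℕ) (t : ℕ) (js : Fin (t + 1) → ℕ) : ℕ :=
  (stepS m D H t (runS m D H t (Fin.init js)) (js (Fin.last t))).2

def St.opens (s : St) : Finset ℕ := s.p.toFinset ∪ s.q.toFinset

theorem St.mem_opens {s : St} {l : ℕ} : l ∈ s.opens ↔ s.p = some l ∨ s.q = some l := by
  simp [St.opens]

structure InvS (m t : ℕ) (s : St) : Prop where
  hp : s.p = none → s.a = m - 1
  hq : s.q = none → s.b = m - 1
  lt : ∀ l ∈ s.opens, l < t
  ne : ∀ l, s.p = some l → s.q = some l → False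
  am : s.a < m
  bm : s.b < m

variable {m D : ℕ} {H : ℕ → ℕ → ℕ}

/-- the four cases of a step -/
theorem step_cases {t : ℕ} {s : St} {j : ℕ} (hs : InvS m t s) (hj : j < m) :
    (∃ l, s.p = some l ∧ s.a + j + 1 < m ∧
      stepS m D H t s j = (⟨s.p, s.q, s.a + j + 1, s.b⟩, l) ∧
      H s.b (s.a + j + 1) ≤ opt4 m D 1 H s.a s.b j) ∨
    (∃ l, s.q = some l ∧ s.b + j + 1 < m ∧
      stepS m D H t s j = (⟨s.p, s.q, s.a, s.b + j + 1⟩, l) ∧
      H s.a (s.b + j + 1) ≤ opt4 m D 1 H s.a s.b j) ∨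
    (stepS m D H t s j = (⟨s.p, some t, s.a, j⟩, t) ∧ D + H s.a j ≤ opt4 m D 1 H s.a s.b j) ∨
    (stepS m D H t s j = (⟨some t, s.q, j, s.b⟩, t) ∧ D + H s.b j ≤ opt4 m D 1 H s.a s.b j) := by
  unfold stepS
  by_cases h1 : s.a + j + 1 < m ∧ H s.b (s.a + j + 1) ≤ min (min (D + H s.a j) (D + H s.b j))
      (if s.b + j + 1 < m then H s.a (s.b + j + 1) else D + H s.a j)
  · left
    rw [if_pos h1]
    obtain ⟨h11, h12⟩ := h1
    cases hp : s.p with
    | none =>
      have := hs.hp hp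
      omega
    | some l =>
      refine ⟨l, rfl, h11, by simp, ?_⟩
      unfold opt4
      rw [if_pos h11]
      split_ifs at h12 ⊢ <;> omega
  · rw [if_neg h1]
    by_cases h2 : s.b + j + 1 < m ∧ H s.a (s.b + j + 1) ≤ min (D + H s.a j) (D + H s.b j)
    · right; left
      rw [if_pos h2]
      obtain ⟨h21, h22⟩ := h2
      cases hq : s.q with
      | none =>
        have := hs.hq hq
        omega
      | some l =>
        refine ⟨l, rfl, h21, by simp, ?_⟩
        unfold opt4
        rw [if_pos h21]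
        rw [if_pos h21] at h1
        split_ifs with h
        · have : ¬ H s.b (s.a + j + 1) ≤ min (min (D + H s.a j) (D + H s.b j))
            (H s.a (s.b + j + 1)) := fun hc => h1 ⟨h, hc⟩
          omega
        · omega
    · rw [if_neg h2]
      right; right
      have key : min (D + H s.a j) (D + H s.b j) ≤ opt4 m D 1 H s.a s.b j := by
        unfold opt4
        split_ifs with g1 g2 g2
        · rw [if_pos g2] at h1
          have k1 : ¬ H s.b (s.a + j + 1) ≤ min (min (D + H s.a j) (D + H s.b j))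
              (H s.a (s.b + j + 1)) := fun hc => h1 ⟨g1, hc⟩
          have k2 : ¬ H s.a (s.b + j + 1) ≤ min (D + H s.a j) (D + H s.b j) :=
            fun hc => h2 ⟨g2, hc⟩
          omega
        · rw [if_neg g2] at h1
          have k1 : ¬ H s.b (s.a + j + 1) ≤ min (min (D + H s.a j) (D + H s.b j))
              (D + H s.a j) := fun hc => h1 ⟨g1, hc⟩
          omega
        · have k2 : ¬ H s.a (s.b + j + 1) ≤ min (D + H s.a j) (D + H s.b j) :=
            fun hc => h2 ⟨g2, hc⟩
          omega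
        · omega
      by_cases h3 : H s.a j ≤ H s.b j
      · left
        rw [if_pos h3]
        exact ⟨rfl, by omega⟩
      · right
        rw [if_neg h3]
        exact ⟨rfl, by omega⟩

theorem InvS.step {t : ℕ} {s : St} {j : ℕ} (hs : InvS m t s) (hj : j < m) :
    InvS m (t + 1) (stepS m D H t s j).1 := by
  have hlt : ∀ l ∈ s.opens, l < t + 1 := fun l hl => by have := hs.lt l hl; omega
  rcases step_cases (D := D) (H := H) hs hj with ⟨l, hl, h1, h2, -⟩ | ⟨l, hl, h1, h2, -⟩ |
    ⟨h2, -⟩ | ⟨h2, -⟩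
  · rw [h2]
    exact ⟨fun h => by simp [hl] at h, hs.hq, hlt, hs.ne, h1, hs.bm⟩
  · rw [h2]
    exact ⟨hs.hp, fun h => by simp [hl] at h, hlt, hs.ne, hs.am, h1⟩
  · rw [h2]
    refine ⟨hs.hp, fun h => by simp at h, ?_, ?_, hs.am, hj⟩
    · intro l hl
      rw [St.mem_opens] at hl
      rcases hl with hl | hl
      · exact hlt l (St.mem_opens.mpr (Or.inl hl))
      · simp only [Option.some.injEq] at hl; omega
    · intro l h3 h4
      simp only [Option.some.injEq] at h4
      have := hs.lt l (St.mem_opens.mpr (Or.inl h3))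
      omega
  · rw [h2]
    refine ⟨fun h => by simp at h, hs.hq, ?_, ?_, hj, hs.bm⟩
    · intro l hl
      rw [St.mem_opens] at hl
      rcases hl with hl | hl
      · simp only [Option.some.injEq] at hl; omega
      · exact hlt l (St.mem_opens.mpr (Or.inr hl))
    · intro l h3 h4
      simp only [Option.some.injEq] at h3
      have := hs.lt l (St.mem_opens.mpr (Or.inr h4))
      omega

theorem inv_run (hm : 0 < m) : ∀ (t : ℕ) (js : Fin t → ℕ), (∀ i, js i < m) →
    InvS m t (runS m D H t js)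
  | 0, _, _ => by
      refine ⟨fun _ => rfl, fun _ => rfl, ?_, ?_, ?_, ?_⟩
      · intro l hl
        rw [St.mem_opens] at hl
        simp [runS] at hl
      · intro l h; simp [runS] at h
      · show m - 1 < m; omega
      · show m - 1 < m; omega
  | t + 1, js, hjs => (inv_run hm t (Fin.init js) (fun i => hjs _)).step (hjs _)

theorem lab_le (hm : 0 < m) (t : ℕ) (js : Fin (t + 1) → ℕ) (hjs : ∀ i, js i < m) :
    labS m D H t js ≤ t := by
  have hs := inv_run (D := D) (H := H) hm t (Fin.init js) (fun i => hjs _)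
  unfold labS
  rcases step_cases (D := D) (H := H) hs (hjs (Fin.last t)) with ⟨l, hl, h1, h2, -⟩ |
    ⟨l, hl, h1, h2, -⟩ | ⟨h2, -⟩ | ⟨h2, -⟩
  · rw [h2]
    exact (hs.lt l (St.mem_opens.mpr (Or.inl hl))).le
  · rw [h2]
    exact (hs.lt l (St.mem_opens.mpr (Or.inr hl))).le
  · rw [h2]
  · rw [h2]

/-- the class of a size -/
noncomputable def disc (m : ℕ) (y : ℝ) : ℕ := min (m - 1) (⌈(m : ℝ) * y⌉₊ - 1)

theorem disc_lt (hm : 0 < m) (y : ℝ) : disc m y < m := by
  unfold disc; omega

theorem le_disc (hm : 0 < m) {y : ℝ} (hy : y ∈ Set.Icc (0 : ℝ) 1) :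
    (m : ℝ) * y ≤ disc m y + 1 := by
  have hm' : (0 : ℝ) < m := by exact_mod_cast hm
  have h1 : (m : ℝ) * y ≤ m := by nlinarith [hy.2]
  have h2 : ⌈(m : ℝ) * y⌉₊ ≤ m := Nat.ceil_le.mpr h1
  have h3 : (m : ℝ) * y ≤ ⌈(m : ℝ) * y⌉₊ := Nat.le_ceil _
  have h4 : ⌈(m : ℝ) * y⌉₊ ≤ disc m y + 1 := by unfold disc; omega
  calc (m : ℝ) * y ≤ ⌈(m : ℝ) * y⌉₊ := h3
    _ ≤ ((disc m y + 1 : ℕ) : ℝ) := by exact_mod_cast h4
    _ = _ := by push_cast; ring

theorem disc_cell (hm : 0 < m) {j : ℕ} (hj : j < m) {y : ℝ}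
    (hy : y ∈ Set.Ioo ((j : ℝ) / m) (((j : ℝ) + 1) / m)) : disc m y = j := by
  obtain ⟨h1, h2, -, -⟩ := cell_facts hm hj hy
  have : ⌈(m : ℝ) * y⌉₊ = j + 1 := by
    rw [Nat.ceil_eq_iff (by omega)]
    constructor
    · simpa using h1
    · push_cast; exact h2.le
  unfold disc
  rw [this]
  omega

theorem measurable_disc (m : ℕ) : Measurable (disc m) := by
  unfold disc
  have h1 : Measurable fun y : ℝ => ⌈(m : ℝ) * y⌉₊ :=
    Nat.measurable_ceil.comp (measurable_const.mul measurable_id)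
  exact (measurable_from_top (f := fun n : ℕ => min (m - 1) (n - 1))).comp h1

theorem measurable_disc_pi {n : ℕ} (f : (Fin n → ℕ) → ℕ) :
    Measurable fun x : Fin n → ℝ => f (fun i => disc m (x i)) := by
  have h1 : Measurable fun x : Fin n → ℝ => fun i => disc m (x i) := by
    rw [measurable_pi_iff]
    intro i
    exact (measurable_disc m).comp (measurable_pi_apply i)
  exact (measurable_of_countable f).comp h1

end Pool.Agent.F1D
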