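import Pool.Agent.Lib.MP_f1d828_lc.Upper

/-! The packing algorithm given by a table of potentials, and its expected number of bins. -/

open MeasureTheory Filter
open scoped ENNReal

namespace Pool.Agent.F1D

theorem sum_snoc' (B : (t : ℕ) → (Fin (t + 1) → ℝ) → ℕ) {n : ℕ} (x : Fin n → ℝ) (y : ℝ)
    (b : ℕ) :
    ∑ i with B i.1 (upto (Fin.snoc (α := fun _ => ℝ) x y) i) = b,
      (Fin.snoc (α := fun _ => ℝ) x y i) =
    (∑ i with B i.1 (upto x i) = b, (x i)) +
      if B n (Fin.snoc (α := fun _ => ℝ) x y) = b then y else 0 := by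
  rw [Finset.sum_filter, Fin.sum_univ_castSucc, Finset.sum_filter]
  congr 1
  · apply Finset.sum_congr rfl
    intro i _
    rw [upto_snoc_castSucc, Fin.snoc_castSucc]
    rfl
  · rw [Fin.snoc_last, upto_last]
    rfl

theorem snoc_init {n : ℕ} (z : Fin (n + 1) → ℝ) :
    (Fin.snoc (α := fun _ => ℝ) (Fin.init z) (z (Fin.last n))) = z := Fin.snoc_init_self z

section alg

variable (m D : ℕ) (H : ℕ → ℕ → ℕ)

noncomputable def binF (t : ℕ) (x : Fin (t + 1) → ℝ) : ℕ := labS m D H t (fun i => disc m (x i))

noncomputable def stF (t : ℕ) (x : Fin t → ℝ) : St := runS m D H t (fun i => disc m (x i))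

theorem stF_succ (t : ℕ) (z : Fin (t + 1) → ℝ) :
    stF m D H (t + 1) z =
      (stepS m D H t (stF m D H t (Fin.init z)) (disc m (z (Fin.last t)))).1 := rfl

theorem binF_eq (t : ℕ) (z : Fin (t + 1) → ℝ) :
    binF m D H t z =
      (stepS m D H t (stF m D H t (Fin.init z)) (disc m (z (Fin.last t)))).2 := rfl

variable {m D H}

theorem inv_stF (hm : 0 < m) (t : ℕ) (x : Fin t → ℝ) : InvS m t (stF m D H t x) :=
  inv_run hm t _ (fun _ => disc_lt hm _)

theorem binF_le (hm : 0 < m) (t : ℕ) (x : Fin (t + 1) → ℝ) : binF m D H t x ≤ t :=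
  lab_le hm t _ (fun _ => disc_lt hm _)

theorem binF_mem (hm : 0 < m) (t : ℕ) (z : Fin (t + 1) → ℝ) :
    binF m D H t z ∈ (stF m D H t (Fin.init z)).opens ∨ binF m D H t z = t := by
  rw [binF_eq]
  rcases step_cases (D := D) (H := H) (inv_stF (D := D) (H := H) hm t (Fin.init z))
    (disc_lt hm (z (Fin.last t))) with ⟨l, hl, h1, h2, -⟩ | ⟨l, hl, h1, h2, -⟩ | ⟨h2, -⟩ | ⟨h2, -⟩
  · rw [h2]; left; exact St.mem_opens.mpr (Or.inl hl)
  · rw [h2]; left; exact St.mem_opens.mpr (Or.inr hl)
  · rw [h2]; right; rfl
  · rw [h2]; right; rfl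

theorem opens_subset (hm : 0 < m) (t : ℕ) (z : Fin (t + 1) → ℝ) :
    (stF m D H (t + 1) z).opens ⊆
      insert (binF m D H t z) (stF m D H t (Fin.init z)).opens := by
  rw [binF_eq, stF_succ]
  intro u hu
  rw [Finset.mem_insert, St.mem_opens]
  rcases step_cases (D := D) (H := H) (inv_stF (D := D) (H := H) hm t (Fin.init z))
    (disc_lt hm (z (Fin.last t))) with ⟨l, hl, h1, h2, -⟩ | ⟨l, hl, h1, h2, -⟩ | ⟨h2, -⟩ | ⟨h2, -⟩
  · rw [h2, St.mem_opens] at hu; right; exact hu
  · rw [h2, St.mem_opens] at hu; right; exact hu
  · rw [h2, St.mem_opens] at hu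
    rw [h2]
    rcases hu with hu | hu
    · right; left; exact hu
    · left; simpa using hu.symm
  · rw [h2, St.mem_opens] at hu
    rw [h2]
    rcases hu with hu | hu
    · left; simpa using hu.symm
    · right; right; exact hu

theorem label_mem_opens (hm : 0 < m) (t : ℕ) (z : Fin (t + 1) → ℝ) :
    binF m D H t z ∈ (stF m D H (t + 1) z).opens := by
  rw [binF_eq, stF_succ, St.mem_opens]
  rcases step_cases (D := D) (H := H) (inv_stF (D := D) (H := H) hm t (Fin.init z))
    (disc_lt hm (z (Fin.last t))) with ⟨l, hl, h1, h2, -⟩ | ⟨l, hl, h1, h2, -⟩ | ⟨h2, -⟩ | ⟨h2, -⟩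
  · rw [h2]; left; exact hl
  · rw [h2]; right; exact hl
  · rw [h2]; right; rfl
  · rw [h2]; left; rfl

theorem opens_card (s : St) : s.opens.card ≤ 2 := by
  unfold St.opens
  refine le_trans (Finset.card_union_le _ _) ?_
  have h : ∀ o : Option ℕ, o.toFinset.card ≤ 1 := by
    intro o; cases o <;> simp
  have := h s.p
  have := h s.q
  omega

/-- sum of the sizes in bin `l` -/
noncomputable def sumF (m D : ℕ) (H : ℕ → ℕ → ℕ) {t : ℕ} (x : Fin t → ℝ) (l : ℕ) : ℝ :=
  ∑ i with binF m D H i.1 (upto x i) = l, x i

theorem sumF_snoc {t : ℕ} (x : Fin t → ℝ) (y : ℝ) (l : ℕ) :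
    sumF m D H (Fin.snoc (α := fun _ => ℝ) x y) l = sumF m D H x l +
      if binF m D H t (Fin.snoc (α := fun _ => ℝ) x y) = l then y else 0 :=
  sum_snoc' (binF m D H) x y l

theorem sumF_new (hm : 0 < m) {t : ℕ} (x : Fin t → ℝ) : sumF m D H x t = 0 := by
  unfold sumF
  rw [Finset.filter_false_of_mem]
  · simp
  · intro i _ h
    have := binF_le (D := D) (H := H) hm i.1 (upto x i)
    have := i.2
    omega

theorem cap_aux (hm : 0 < m) : ∀ (t : ℕ) (x : Fin t → ℝ), (∀ i, x i ∈ Set.Icc (0 : ℝ) 1) →
    ∀ l, sumF m D H x l ≤ 1 ∧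
      ((stF m D H t x).p = some l → m * sumF m D H x l ≤ (stF m D H t x).a + 1) ∧
      ((stF m D H t x).q = some l → m * sumF m D H x l ≤ (stF m D H t x).b + 1)
  | 0, x, _, l => by
      refine ⟨by simp [sumF], ?_, ?_⟩
      · intro h; simp [stF, runS] at h
      · intro h; simp [stF, runS] at h
  | t + 1, z, hz, l => by
      have hm' : (0 : ℝ) < m := by exact_mod_cast hm
      have ih := cap_aux hm t (Fin.init z) (fun i => hz _)
      have hinv := inv_stF (D := D) (H := H) hm t (Fin.init z)
      set s := stF m D H t (Fin.init z) with hs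
      set y := z (Fin.last t) with hy
      have hyI : y ∈ Set.Icc (0 : ℝ) 1 := hz _
      have hyj := le_disc hm hyI
      have hjm := disc_lt hm y
      set j := disc m y with hj
      have hS : ∀ l, sumF m D H z l = sumF m D H (Fin.init z) l +
          if binF m D H t z = l then y else 0 := by
        intro l
        have := sumF_snoc (m := m) (D := D) (H := H) (Fin.init z) y l
        rwa [snoc_init] at this
      have hst : stF m D H (t + 1) z = (stepS m D H t s j).1 := rfl
      have hb : binF m D H t z = (stepS m D H t s j).2 := rfl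
      have hnew : sumF m D H (Fin.init z) t = 0 := sumF_new hm _
      rw [hst, hS l, hb]
      rcases step_cases (D := D) (H := H) hinv hjm with ⟨k, hk, h1, h2, -⟩ | ⟨k, hk, h1, h2, -⟩ |
        ⟨h2, -⟩ | ⟨h2, -⟩
      · rw [h2]
        simp only
        have h1' : (s.a : ℝ) + j + 1 + 1 ≤ m := by exact_mod_cast h1
        by_cases hkl : k = l
        · subst hkl
          have h3 := (ih k).2.1 hk
          rw [if_pos rfl]
          have h4 : (m : ℝ) * (sumF m D H (Fin.init z) k + y) ≤ s.a + j + 1 + 1 := by
            rw [mul_add]; linarith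
          refine ⟨?_, ?_, ?_⟩
          · have : (m : ℝ) * (sumF m D H (Fin.init z) k + y) ≤ m * 1 := by linarith
            exact le_of_mul_le_mul_left this hm'
          · intro _; push_cast; linarith
          · intro hq; exact absurd hq (fun hq => hinv.ne k hk hq)
        · rw [if_neg hkl, add_zero]
          refine ⟨(ih l).1, ?_, (ih l).2.2⟩
          intro hp
          rw [hk] at hp
          exact absurd (Option.some.inj hp) hkl
      · rw [h2]
        simp only
        have h1' : (s.b : ℝ) + j + 1 + 1 ≤ m := by exact_mod_cast h1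
        by_cases hkl : k = l
        · subst hkl
          have h3 := (ih k).2.2 hk
          rw [if_pos rfl]
          have h4 : (m : ℝ) * (sumF m D H (Fin.init z) k + y) ≤ s.b + j + 1 + 1 := by
            rw [mul_add]; linarith
          refine ⟨?_, ?_, ?_⟩
          · have : (m : ℝ) * (sumF m D H (Fin.init z) k + y) ≤ m * 1 := by linarith
            exact le_of_mul_le_mul_left this hm'
          · intro hp; exact absurd hk (fun hq => hinv.ne k hp hq)
          · intro _; push_cast; linarith
        · rw [if_neg hkl, add_zero]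
          refine ⟨(ih l).1, (ih l).2.1, ?_⟩
          intro hq
          rw [hk] at hq
          exact absurd (Option.some.inj hq) hkl
      · rw [h2]
        simp only
        by_cases hkl : t = l
        · subst hkl
          rw [if_pos rfl, hnew, zero_add]
          refine ⟨hyI.2, ?_, ?_⟩
          · intro hp
            have := hinv.lt t (St.mem_opens.mpr (Or.inl hp))
            omega
          · intro _; exact hyj
        · rw [if_neg hkl, add_zero]
          refine ⟨(ih l).1, (ih l).2.1, ?_⟩
          intro hq
          exact absurd (Option.some.inj hq) hkl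
      · rw [h2]
        simp only
        by_cases hkl : t = l
        · subst hkl
          rw [if_pos rfl, hnew, zero_add]
          refine ⟨hyI.2, ?_, ?_⟩
          · intro _; exact hyj
          · intro hq
            have := hinv.lt t (St.mem_opens.mpr (Or.inr hq))
            omega
        · rw [if_neg hkl, add_zero]
          refine ⟨(ih l).1, ?_, (ih l).2.2⟩
          intro hp
          exact absurd (Option.some.inj hp) hkl

/-- The algorithm given by the table `H`. -/
noncomputable def algF (m D : ℕ) (H : ℕ → ℕ → ℕ) (hm : 0 < m) : OnlineAlg 2 where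
  bin := binF m D H
  opn := fun t x => (stF m D H t x).opens
  measurable_bin := fun t => measurable_disc_pi (labS m D H t)
  opn_zero := fun x => by
    ext l
    rw [St.mem_opens]
    simp [stF, runS]
  bin_mem := fun t x _ => by
    rcases binF_mem (D := D) (H := H) hm t x with h | h
    · exact Or.inl h
    · right
      intro i hi
      have h1 := binF_le (D := D) (H := H) hm i.1 (upto x i.castSucc)
      have h2 := i.2
      have h3 : binF m D H i.1 (upto x i.castSucc) = t := hi.trans h
      omega
  opn_subset := fun t x _ => opens_subset hm t x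
  card_le := fun t x _ => by
    rw [Finset.insert_eq_self.mpr (label_mem_opens hm t x)]
    exact opens_card _
  capacity := fun t x hx b => (cap_aux hm t x hx b).1

theorem used_opens (hm : 0 < m) : ∀ (t : ℕ) (x : Fin t → ℝ),
    (stF m D H t x).opens ⊆ (algF m D H hm).used x
  | 0, x => by
      intro l hl
      rw [St.mem_opens] at hl
      simp [stF, runS] at hl
  | t + 1, z => by
      have h1 := used_snoc (algF m D H hm) (Fin.init z) (z (Fin.last t))
      rw [snoc_init] at h1
      rw [h1]
      refine (opens_subset hm t z).trans ?_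
      exact Finset.insert_subset_insert _ (used_opens hm t (Fin.init z))

/-- the potential function -/
noncomputable def potF (m D : ℕ) (H : ℕ → ℕ → ℕ) (hm : 0 < m) (t : ℕ) (x : Fin t → ℝ) : ℕ :=
  D * (algF m D H hm).count x + H (stF m D H t x).a (stF m D H t x).b

theorem potF_snoc {MC : ℕ} (hm : 0 < m) (cert : CertU m D MC H) {t : ℕ} (x : Fin t → ℝ) {j : ℕ}
    (hj : j < m) {y : ℝ} (hy : y ∈ Set.Ioo ((j : ℝ) / m) (((j : ℝ) + 1) / m)) :
    potF m D H hm (t + 1) (Fin.snoc (α := fun _ => ℝ) x y) ≤
      D * (algF m D H hm).count x + opt4 m D 1 H (stF m D H t x).a (stF m D H t x).b j := by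
  set z : Fin (t + 1) → ℝ := Fin.snoc (α := fun _ => ℝ) x y with hz
  have hinit : Fin.init z = x := by funext i; simp [hz, Fin.init]
  have hlast : z (Fin.last t) = y := by simp [hz]
  have hd : disc m y = j := disc_cell hm hj hy
  have hinv := inv_stF (D := D) (H := H) hm t x
  have hst : stF m D H (t + 1) z = (stepS m D H t (stF m D H t x) j).1 := by
    rw [stF_succ, hinit, hlast, hd]
  have hb : binF m D H t z = (stepS m D H t (stF m D H t x) j).2 := by
    rw [binF_eq, hinit, hlast, hd]
  have hcount : (algF m D H hm).count z =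
      (insert (binF m D H t z) ((algF m D H hm).used x)).card := by
    have h1 := used_snoc (algF m D H hm) x y
    rw [← hz] at h1
    show ((algF m D H hm).used z).card = _
    rw [h1]; rfl
  have hcx : (algF m D H hm).count x = ((algF m D H hm).used x).card := rfl
  unfold potF
  rw [hst, hcount, hb]
  set s := stF m D H t x with hs
  have hold : ∀ l ∈ s.opens, (insert l ((algF m D H hm).used x)).card =
      (algF m D H hm).count x := by
    intro l hl
    rw [Finset.insert_eq_self.mpr (used_opens hm t x hl), hcx]
  have hnew : ∀ l, D * (insert l ((algF m D H hm).used x)).card ≤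
      D * (algF m D H hm).count x + D := by
    intro l
    rw [hcx]
    calc D * (insert l ((algF m D H hm).used x)).card
        ≤ D * (((algF m D H hm).used x).card + 1) :=
          Nat.mul_le_mul_left D (Finset.card_insert_le _ _)
      _ = _ := by ring
  rcases step_cases (D := D) (H := H) hinv hj with ⟨k, hk, h1, h2, h3⟩ | ⟨k, hk, h1, h2, h3⟩ |
    ⟨h2, h3⟩ | ⟨h2, h3⟩
  · rw [h2]
    simp only
    rw [hold k (St.mem_opens.mpr (Or.inl hk)), cert.symm _ h1 _ hinv.bm]
    omega
  · rw [h2]
    simp only
    rw [hold k (St.mem_opens.mpr (Or.inr hk))]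
    omega
  · rw [h2]
    simp only
    have := hnew t
    omega
  · rw [h2]
    simp only
    rw [cert.symm _ hj _ hinv.bm]
    have := hnew t
    omega

theorem measurable_count {k : ℕ} (A : OnlineAlg k) (n : ℕ) :
    Measurable fun x : Fin n → ℝ => A.count x := by
  have h1 : Measurable fun x : Fin n → ℝ => fun i : Fin n => A.bin i.1 (upto x i) := by
    rw [measurable_pi_iff]
    intro i
    apply (A.measurable_bin i.1).comp
    rw [measurable_pi_iff]
    intro j
    exact measurable_pi_apply _
  exact (measurable_of_countable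
    (fun f : Fin n → ℕ => (Finset.univ.image f).card)).comp h1

theorem measurable_potF (hm : 0 < m) (t : ℕ) : Measurable (potF m D H hm t) := by
  unfold potF
  apply Measurable.add
  · exact measurable_const.mul (measurable_count _ _)
  · exact measurable_disc_pi (fun js => H (runS m D H t js).a (runS m D H t js).b)

theorem upper_aux {MC : ℕ} (hm : 0 < m) (cert : CertU m D MC H) : ∀ (t : ℕ),
    ∫⁻ x, (potF m D H hm t x : ℝ≥0∞) ∂(law t) ≤
      H (m - 1) (m - 1) + t * ((MC : ℝ≥0∞) / m)
  | 0 => by
      have h0 : ∀ x : Fin 0 → ℝ, (potF m D H hm 0 x : ℝ≥0∞) = H (m - 1) (m - 1) := fun x => by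
        simp [potF, OnlineAlg.count, stF, runS]
      rw [lintegral_congr h0, lintegral_const]
      simp
  | t + 1 => by
      have hmeas : Measurable fun x : Fin (t + 1) → ℝ => (potF m D H hm (t + 1) x : ℝ≥0∞) :=
        measurable_from_top.comp (measurable_potF hm (t + 1))
      rw [lintegral_law_succ hmeas]
      have hm0 : (m : ℝ≥0∞) ≠ 0 := by exact_mod_cast hm.ne'
      have hmt : (m : ℝ≥0∞) ≠ ⊤ := ENNReal.natCast_ne_top m
      calc ∫⁻ x, ∫⁻ y, (potF m D H hm (t + 1) (Fin.snoc x y) : ℝ≥0∞) ∂unif ∂(law t)
          ≤ ∫⁻ x, ((potF m D H hm t x : ℝ≥0∞) + (MC : ℝ≥0∞) / m) ∂(law t) := by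
            apply lintegral_mono
            intro x
            have hinv := inv_stF (D := D) (H := H) hm t x
            refine le_trans (lintegral_unif_le hm
              (g := fun j => ((D * (algF m D H hm).count x +
                opt4 m D 1 H (stF m D H t x).a (stF m D H t x).b j : ℕ) : ℝ≥0∞)) ?_) ?_
            · intro j hj y hy
              exact_mod_cast potF_snoc hm cert x hj hy
            · rw [ENNReal.div_le_iff_le_mul (Or.inl hm0) (Or.inl hmt)]
              have hmain := cert.main _ hinv.am _ hinv.bm
              have e1 : ((potF m D H hm t x : ℝ≥0∞) + (MC : ℝ≥0∞) / m) * m =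
                  ((m * (D * (algF m D H hm).count x) +
                    (m * H (stF m D H t x).a (stF m D H t x).b + MC) : ℕ) : ℝ≥0∞) := by
                rw [add_mul, ENNReal.div_mul_cancel hm0 hmt]
                unfold potF
                push_cast
                ring
              have e2 : ∑ j ∈ Finset.range m, ((D * (algF m D H hm).count x +
                  opt4 m D 1 H (stF m D H t x).a (stF m D H t x).b j : ℕ) : ℝ≥0∞) =
                  ((m * (D * (algF m D H hm).count x) +
                    ∑ j ∈ Finset.range m, opt4 m D 1 H (stF m D H t x).a (stF m D H t x).b j : ℕ)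
                      : ℝ≥0∞) := by
                rw [← Nat.cast_sum, Finset.sum_add_distrib]
                simp
              rw [e1, e2]
              gcongr
        _ = ∫⁻ x, (potF m D H hm t x : ℝ≥0∞) ∂(law t) + (MC : ℝ≥0∞) / m := by
            rw [lintegral_add_right _ measurable_const, lintegral_const]
            simp
        _ ≤ (H (m - 1) (m - 1) + t * ((MC : ℝ≥0∞) / m)) + (MC : ℝ≥0∞) / m := by
            gcongr
            exact upper_aux hm cert t
        _ = _ := by push_cast; ring

end alg

end Pool.Agent.F1D
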